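import Pool.Agent.Lib.DL.Defs

/-!
# DL / SumE (120 lines): the sums over `d, d', e`

PROOF.  For fixed `d, d'` (`D^2 ≤ d d' ≤ 4 D^2`), `g = gcd d d' ≥ 1`; the `e ∈ Icc 1 E` with `g ∣ e` and `e ≤ X` are at most `X/g` many (`e = g f`, `1 ≤ f ≤ X/g`), `X ≥ 0` real.
First term: `Z g` times the number of `e` with `g ∣ e`, `e ≤ C α d d'/B ≤ 4 C α D^2/B`: `≤ 4 C Z α D^2/B`.  Second term: `B e/(d d') ≤ B E/D^2`, at most `E/g ≤ E` many: `≤ B E^2/D^2`.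
Third: `α Z g` times at most `E/g`: `≤ α Z E`.  Sum over the `D^2` pairs `(d, d')`.  `C' = 4 C^2 + C` (any constant).
-/

set_option autoImplicit false

namespace Pool.Agent.Lib.DL

open Finset Pool.Agent.Lib.ZB Pool.Agent.Lib.HB Pool.Agent.Lib.HC

/-- the multiples of `g` in `[1, E]` up to `X` -/
private theorem se_card (g E : ℕ) (hg : 1 ≤ g) (X : ℝ) (hX : 0 ≤ X) :
    (((Icc 1 E).filter fun e => g ∣ e ∧ (e : ℝ) ≤ X).card : ℝ) ≤ X / g := by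
  classical
  have hg0 : (0 : ℝ) < g := by exact_mod_cast hg
  have h1 : ((Icc 1 E).filter fun e => g ∣ e ∧ (e : ℝ) ≤ X) ⊆ (Icc 1 ⌊X / g⌋₊).image (fun f => g * f) := by
    intro e he
    rw [mem_filter, mem_Icc] at he
    obtain ⟨⟨h1, _⟩, ⟨f, rfl⟩, h3⟩ := he
    rw [mem_image]
    refine ⟨f, ?_, rfl⟩
    rw [mem_Icc]
    constructor
    · rcases Nat.eq_zero_or_pos f with h | h
      · subst h
        simp at h1
      · exact h
    · refine Nat.le_floor ?_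
      rw [le_div_iff₀ hg0]
      push_cast at h3
      linarith
  have h2 := (card_le_card h1).trans card_image_le
  rw [Nat.card_Icc, Nat.add_sub_cancel] at h2
  calc (((Icc 1 E).filter fun e => g ∣ e ∧ (e : ℝ) ≤ X).card : ℝ) ≤ (⌊X / g⌋₊ : ℝ) := by exact_mod_cast h2
    _ ≤ X / g := Nat.floor_le (by positivity)

private theorem se_one (C : ℝ) (hC : 1 ≤ C) (D E d d' : ℕ) (Z B α : ℝ) (hD : 1 ≤ D) (hZ : 1 ≤ Z) (hB : 0 < B) (hα : 0 ≤ α)
    (h1 : D ≤ d) (h2 : d < 2 * D) (h3 : D ≤ d') (h4 : d' < 2 * D) :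
    ∑ e ∈ Icc 1 E, (if d.gcd d' ∣ e then
        C * ((if B * ((e : ℝ) / (d * d')) ≤ C * α then Z * (d.gcd d' : ℕ) else 0) + B * ((e : ℝ) / (d * d')) + α * Z * (d.gcd d' : ℕ))
      else 0) ≤ 4 * C ^ 2 * (Z * α * (D : ℝ) ^ 2 / B + B * (E : ℝ) ^ 2 / (D : ℝ) ^ 2 + α * Z * E) := by
  classical
  have hD0 : (0 : ℝ) < D := by exact_mod_cast hD
  have hd0 : (0 : ℝ) < d := by exact_mod_cast (by omega : 0 < d)
  have hd0' : (0 : ℝ) < d' := by exact_mod_cast (by omega : 0 < d')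
  obtain ⟨g, hg⟩ : ∃ g : ℕ, g = d.gcd d' := ⟨_, rfl⟩
  have hg1 : 1 ≤ g := by
    rw [hg]
    exact Nat.gcd_pos_of_pos_left _ (by omega)
  have hg0 : (0 : ℝ) < g := by exact_mod_cast hg1
  have hg1' : (1 : ℝ) ≤ g := by exact_mod_cast hg1
  rw [← hg]
  have hC0 : 0 < C := by linarith
  have hdd1 : (D : ℝ) ^ 2 ≤ d * d' := by
    have e1 : (D : ℝ) ≤ d := by exact_mod_cast h1
    have e2 : (D : ℝ) ≤ d' := by exact_mod_cast h3
    nlinarith
  have hdd2 : (d : ℝ) * d' ≤ 4 * (D : ℝ) ^ 2 := by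
    have e1 : (d : ℝ) ≤ 2 * D := by exact_mod_cast h2.le
    have e2 : (d' : ℝ) ≤ 2 * D := by exact_mod_cast h4.le
    nlinarith
  have hD2 : (0 : ℝ) < (D : ℝ) ^ 2 := by positivity
  have hE0 : (0 : ℝ) ≤ E := Nat.cast_nonneg E
  -- termwise
  have hterm : ∀ e ∈ Icc 1 E, (if g ∣ e then
        C * ((if B * ((e : ℝ) / (d * d')) ≤ C * α then Z * (g : ℕ) else 0) + B * ((e : ℝ) / (d * d')) + α * Z * (g : ℕ))
      else 0) ≤
      (if g ∣ e ∧ (e : ℝ) ≤ C * α * (4 * (D : ℝ) ^ 2) / B then C * (Z * g) else 0) +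
        (if g ∣ e ∧ (e : ℝ) ≤ E then C * (B * (E : ℝ) / (D : ℝ) ^ 2 + α * Z * g) else 0) := by
    intro e he
    rw [mem_Icc] at he
    have heE : (e : ℝ) ≤ E := by exact_mod_cast he.2
    have he0 : (0 : ℝ) ≤ e := Nat.cast_nonneg e
    by_cases hge : g ∣ e
    · rw [if_pos hge, if_pos (⟨hge, heE⟩ : g ∣ e ∧ (e : ℝ) ≤ E)]
      have e2 : B * ((e : ℝ) / (d * d')) ≤ B * (E : ℝ) / (D : ℝ) ^ 2 := by
        rw [mul_div_assoc]
        refine mul_le_mul_of_nonneg_left ?_ hB.le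
        exact div_le_div₀ hE0 heE hD2 hdd1
      by_cases hc : B * ((e : ℝ) / (d * d')) ≤ C * α
      · have e3 : (e : ℝ) ≤ C * α * (4 * (D : ℝ) ^ 2) / B := by
          rw [le_div_iff₀ hB]
          have e4 : (e : ℝ) * B = B * ((e : ℝ) / (d * d')) * (d * d') := by
            field_simp
          rw [e4]
          exact mul_le_mul hc hdd2 (by positivity) (by positivity)
        rw [if_pos hc, if_pos (⟨hge, e3⟩ : g ∣ e ∧ _)]
        have := mul_le_mul_of_nonneg_left e2 hC0.le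
        nlinarith
      · rw [if_neg hc]
        have h0 : (0 : ℝ) ≤ (if g ∣ e ∧ (e : ℝ) ≤ C * α * (4 * (D : ℝ) ^ 2) / B then C * (Z * g) else 0) := by
          split_ifs
          · positivity
          · exact le_rfl
        have := mul_le_mul_of_nonneg_left e2 hC0.le
        nlinarith
    · rw [if_neg hge]
      have h0 : (0 : ℝ) ≤ (if g ∣ e ∧ (e : ℝ) ≤ C * α * (4 * (D : ℝ) ^ 2) / B then C * (Z * g) else 0) := by
        split_ifs
        · positivity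
        · exact le_rfl
      have h00 : (0 : ℝ) ≤ (if g ∣ e ∧ (e : ℝ) ≤ E then C * (B * (E : ℝ) / (D : ℝ) ^ 2 + α * Z * g) else 0) := by
        split_ifs
        · positivity
        · exact le_rfl
      linarith
  refine (sum_le_sum hterm).trans ?_
  rw [sum_add_distrib, ← sum_filter, ← sum_filter, sum_const, sum_const, nsmul_eq_mul, nsmul_eq_mul]
  have c1 := se_card g E hg1 (C * α * (4 * (D : ℝ) ^ 2) / B) (by positivity)
  have c2 := se_card g E hg1 (E : ℝ) hE0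
  have r1 : (((Icc 1 E).filter fun e => g ∣ e ∧ (e : ℝ) ≤ C * α * (4 * (D : ℝ) ^ 2) / B).card : ℝ) * (C * (Z * g)) ≤
      4 * C ^ 2 * (Z * α * (D : ℝ) ^ 2 / B) := by
    calc _ ≤ (C * α * (4 * (D : ℝ) ^ 2) / B / g) * (C * (Z * g)) := mul_le_mul_of_nonneg_right c1 (by positivity)
      _ = _ := by
        field_simp
  have r2 : (((Icc 1 E).filter fun e => g ∣ e ∧ (e : ℝ) ≤ (E : ℝ)).card : ℝ) * (C * (B * (E : ℝ) / (D : ℝ) ^ 2 + α * Z * g)) ≤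
      C * (B * (E : ℝ) ^ 2 / (D : ℝ) ^ 2 + α * Z * E) := by
    calc _ ≤ ((E : ℝ) / g) * (C * (B * (E : ℝ) / (D : ℝ) ^ 2 + α * Z * g)) := mul_le_mul_of_nonneg_right c2 (by positivity)
      _ = C * ((B * (E : ℝ) ^ 2 / (D : ℝ) ^ 2) / g + α * Z * E) := by
        field_simp
      _ ≤ _ := by
        refine mul_le_mul_of_nonneg_left ?_ hC0.le
        have := div_le_self (by positivity : 0 ≤ B * (E : ℝ) ^ 2 / (D : ℝ) ^ 2) hg1'
        linarith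
  have r3 : C * (B * (E : ℝ) ^ 2 / (D : ℝ) ^ 2 + α * Z * E) ≤ 4 * C ^ 2 * (B * (E : ℝ) ^ 2 / (D : ℝ) ^ 2 + α * Z * E) := by
    refine mul_le_mul_of_nonneg_right ?_ (by positivity)
    nlinarith
  have r4 : 4 * C ^ 2 * (Z * α * (D : ℝ) ^ 2 / B + B * (E : ℝ) ^ 2 / (D : ℝ) ^ 2 + α * Z * E) =
      4 * C ^ 2 * (Z * α * (D : ℝ) ^ 2 / B) + 4 * C ^ 2 * (B * (E : ℝ) ^ 2 / (D : ℝ) ^ 2 + α * Z * E) := by ring
  rw [r4]
  linarith

open Classical in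
theorem sumE (C : ℝ) (hC : 1 ≤ C) : ∃ C' : ℝ, 1 ≤ C' ∧ ∀ (D E : ℕ) (Z B α : ℝ), 1 ≤ D → 1 ≤ Z → 0 < B → 0 ≤ α →
    ∑ d ∈ Ico D (2 * D), ∑ d' ∈ Ico D (2 * D), ∑ e ∈ Icc 1 E,
      (if d.gcd d' ∣ e then
        C * ((if B * ((e : ℝ) / (d * d')) ≤ C * α then Z * (d.gcd d' : ℕ) else 0) + B * ((e : ℝ) / (d * d')) + α * Z * (d.gcd d' : ℕ))
      else 0) ≤
    C' * (D : ℝ) ^ 2 * (Z * α * (D : ℝ) ^ 2 / B + B * (E : ℝ) ^ 2 / (D : ℝ) ^ 2 + α * Z * E) := by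
  refine ⟨4 * C ^ 2, by nlinarith, fun D E Z B α hD hZ hB hα => ?_⟩
  have h : ∀ d ∈ Ico D (2 * D), ∀ d' ∈ Ico D (2 * D), ∑ e ∈ Icc 1 E,
      (if d.gcd d' ∣ e then
        C * ((if B * ((e : ℝ) / (d * d')) ≤ C * α then Z * (d.gcd d' : ℕ) else 0) + B * ((e : ℝ) / (d * d')) + α * Z * (d.gcd d' : ℕ))
      else 0) ≤ 4 * C ^ 2 * (Z * α * (D : ℝ) ^ 2 / B + B * (E : ℝ) ^ 2 / (D : ℝ) ^ 2 + α * Z * E) := by
    intro d hd d' hd'
    rw [mem_Ico] at hd hd'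
    have := se_one C hC D E d d' Z B α hD hZ hB hα hd.1 hd.2 hd'.1 hd'.2
    convert this using 2
  refine (sum_le_sum fun d hd => sum_le_sum fun d' hd' => h d hd d' hd').trans (le_of_eq ?_)
  rw [sum_const, sum_const, Nat.card_Ico, smul_smul, nsmul_eq_mul]
  have e1 : 2 * D - D = D := by omega
  rw [e1]
  push_cast
  ring

end Pool.Agent.Lib.DL
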