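import Pool.Agent.Lib.DL.Cls
import Pool.Agent.Lib.DL.SumE

/-!
# DL / All (220 lines): the number of close pairs with `z < z'`

PROOF.  `p = (n, d)`, `p' = (n', d')`, `z = n/d < z' = n'/d'`, both in `[Z/2, 2Z]`, `Z = N/D ≥ 1`, `B = t/Z^k = t D^k/N^k ∈ [4^(-k), 2^(-k)]` (`Par`).
(1) `0 ≤ yy z - yy z' ≤ yy z ≤ t 2^k/(2 π k Z^k) = 2^k B/(2 π k) < 1/2`, so `nrm` of it is the number itself, `≤ β`.  Geo (1): `B/Z (z' - z)/C0 ≤ β`, so `u = z' - z ≤ C0 β Z/B`, and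
`Z/B = Z^(k+1)/t ≤ (8Y)^(k+1)` (`Par`), so `u ≤ C0 8^(k+1) β Y^(k+1) ≤ C0 8^(k+1) b Y`.  (2) `e = n' d - n d' ≥ 1` (natural number), `e = u d d' ≤ 4 D^2 u ≤ X`, `X = 4 C0 8^(k+1) b Y D^2`, `E = ⌊X⌋`,
and `u ≤ 2Z`.  `n' d = e + n d'`, `xx z' - xx z = xx (n/d + e/(d d')) - xx (n/d)`: so `n ∈ NN t k N M d d' e α`, and `(d, d', e, n)` determines the pair (`n' = (e + n d')/d`):
`card ≤ ∑_d ∑_d' ∑_{e ∈ Icc 1 E, e ≤ 2 Z d d'} card (NN ..)`.  (3) `cls` (each term, `g ∣ e` or not), drop the condition `e ≤ 2 Z d d'` (terms of `sumE` are `≥ 0`), `sumE` with this `Z, B`: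
`≤ C' D^2 (Z α D^2/B + B E^2/D^2 + α Z E)`, `D^2 Z = N D`; `D^2 Z α D^2/B ≤ N D 4^k α D^2 ≤ N D 4^k 2^k a` (`α D^2 ≤ α 2^k Y^(k-2) ≤ 2^k a`);
`B E^2 ≤ X^2 ≤ C b^2 Y^2 D^4 ≤ C b^2 N D` (`D^3 Y^2 ≤ N`); `D^2 α Z E ≤ N D α X = N D C b α Y D^2 ≤ N D C b 2^k α Y^(k-1) ≤ N D C b 2^k a`.  And `a, b ≥ 1`.
-/

set_option autoImplicit false

namespace Pool.Agent.Lib.DL

open Finset Pool.Agent.Lib.ZB Pool.Agent.Lib.HB Pool.Agent.Lib.HC

/-- the points `n/d` lie in `[Z/2, 2Z]` -/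
private theorem da_z {N M D n d : ℕ} (hD : 1 ≤ D) (hM : M ≤ 2 * N) (hn : N < n) (hn2 : n ≤ M) (hd : D ≤ d) (hd2 : d < 2 * D) :
    (N : ℝ) / D / 2 ≤ (n : ℝ) / d ∧ (n : ℝ) / d ≤ 2 * ((N : ℝ) / D) := by
  have hD0 : (0 : ℝ) < D := by exact_mod_cast hD
  have hd0 : (0 : ℝ) < d := by exact_mod_cast (by omega : 0 < d)
  have h1 : (N : ℝ) ≤ n := by exact_mod_cast hn.le
  have h2 : (n : ℝ) ≤ 2 * N := by exact_mod_cast hn2.trans hM
  have h3 : (D : ℝ) ≤ d := by exact_mod_cast hd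
  have h4 : (d : ℝ) ≤ 2 * D := by exact_mod_cast hd2.le
  have hN0 : (0 : ℝ) ≤ N := Nat.cast_nonneg _
  constructor
  · rw [div_div, div_le_div_iff₀ (by positivity) hd0]
    nlinarith
  · rw [← mul_div_assoc, div_le_div_iff₀ hd0 hD0]
    nlinarith

/-- the integer part of the difference of the top coordinates is zero -/
private theorem da_nrm {t z z' β : ℝ} {k : ℕ} (hk : 3 ≤ k) (ht : 0 < t) (hz : 0 < z) (hzz : z ≤ z') (htz : t ≤ z ^ k)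
    (h : nrm (yy t k z - yy t k z') ≤ β) : yy t k z - yy t k z' ≤ β := by
  have hk3 : (3 : ℝ) ≤ k := by exact_mod_cast hk
  have hpi := Real.pi_gt_three
  have h2k : 2 < 2 * Real.pi * k := by nlinarith
  have hz'0 : 0 < z' := by linarith
  have h1 : yy t k z < 1 / 2 := by
    unfold yy
    rw [div_lt_iff₀ (by positivity)]
    nlinarith [pow_pos hz k]
  have h2 : 0 ≤ yy t k z' := by
    unfold yy
    positivity
  have h3 : yy t k z' ≤ yy t k z := by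
    unfold yy
    refine div_le_div_of_nonneg_left ht.le (by positivity) ?_
    exact mul_le_mul_of_nonneg_left (pow_le_pow_left₀ hz.le hzz k) (by positivity)
  have h4 : round (yy t k z - yy t k z') = 0 := by
    rw [round_eq_zero_iff, Set.mem_Ico]
    constructor <;> linarith
  unfold nrm at h
  rw [h4, Int.cast_zero, sub_zero] at h
  exact (le_abs_self _).trans h

/-- the counting step -/
private theorem da_count (N M D E : ℕ) (R : ℝ) (P : ℕ × ℕ → ℕ × ℕ → Prop) (Q : ℕ → ℕ → ℕ → ℕ → Prop)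
    [DecidablePred fun p : (ℕ × ℕ) × (ℕ × ℕ) => P p.1 p.2] [∀ d d' e, DecidablePred fun n => Q d d' e n] (_hD : 1 ≤ D)
    (h : ∀ n d n' d' : ℕ, N < n → n ≤ M → D ≤ d → d < 2 * D → N < n' → n' ≤ M → D ≤ d' → d' < 2 * D → P (n, d) (n', d') →
      n * d' < n' * d ∧ n' * d - n * d' ≤ E ∧ (((n' * d - n * d' : ℕ) : ℕ) : ℝ) ≤ R * ((d : ℝ) * d') ∧ Q d d' (n' * d - n * d') n) :
    ((AA N M D ×ˢ AA N M D).filter fun p : (ℕ × ℕ) × (ℕ × ℕ) => P p.1 p.2).card ≤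
      ∑ d ∈ Ico D (2 * D), ∑ d' ∈ Ico D (2 * D), ∑ e ∈ (Icc 1 E).filter (fun e : ℕ => (e : ℝ) ≤ R * ((d : ℝ) * d')),
        ((Ioc N M).filter fun n => Q d d' e n).card := by
  have h1 : ∑ d ∈ Ico D (2 * D), ∑ d' ∈ Ico D (2 * D), ∑ e ∈ (Icc 1 E).filter (fun e : ℕ => (e : ℝ) ≤ R * ((d : ℝ) * d')),
        ((Ioc N M).filter fun n => Q d d' e n).card =
      ((Ico D (2 * D)).sigma fun d => (Ico D (2 * D)).sigma fun d' =>
        ((Icc 1 E).filter (fun e : ℕ => (e : ℝ) ≤ R * ((d : ℝ) * d'))).sigma fun e => (Ioc N M).filter fun n => Q d d' e n).card := by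
    simp only [card_sigma]
  rw [h1]
  refine card_le_card_of_injOn (fun p => (⟨p.1.2, ⟨p.2.2, ⟨p.2.1 * p.1.2 - p.1.1 * p.2.2, p.1.1⟩⟩⟩ : Σ _ : ℕ, Σ _ : ℕ, Σ _ : ℕ, ℕ)) ?_ ?_
  · rintro ⟨⟨n, d⟩, ⟨n', d'⟩⟩ hp
    obtain ⟨hp1, hp2⟩ := mem_filter.1 (mem_coe.1 hp)
    unfold AA at hp1
    simp only [mem_product, mem_Ioc, mem_Ico] at hp1
    obtain ⟨⟨⟨a1, a2⟩, a3, a4⟩, ⟨a5, a6⟩, a7, a8⟩ := hp1
    obtain ⟨b1, b2, b3, b4⟩ := h n d n' d' a1 a2 a3 a4 a5 a6 a7 a8 hp2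
    have b5 : 1 ≤ n' * d - n * d' := by omega
    simp only [coe_sigma, Set.mem_sigma_iff, mem_coe, mem_Ico, mem_filter, mem_Icc, mem_Ioc]
    exact ⟨⟨a3, a4⟩, ⟨a7, a8⟩, ⟨⟨b5, b2⟩, b3⟩, ⟨a1, a2⟩, b4⟩
  · rintro ⟨⟨n, d⟩, ⟨n', d'⟩⟩ hp ⟨⟨m, f⟩, ⟨m', f'⟩⟩ hq heq
    obtain ⟨hp1, hp2⟩ := mem_filter.1 (mem_coe.1 hp)
    obtain ⟨hq1, hq2⟩ := mem_filter.1 (mem_coe.1 hq)
    unfold AA at hp1 hq1
    simp only [mem_product, mem_Ioc, mem_Ico] at hp1 hq1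
    obtain ⟨⟨⟨a1, a2⟩, a3, a4⟩, ⟨a5, a6⟩, a7, a8⟩ := hp1
    obtain ⟨⟨⟨c1, c2⟩, c3, c4⟩, ⟨c5, c6⟩, c7, c8⟩ := hq1
    obtain ⟨b1, -⟩ := h n d n' d' a1 a2 a3 a4 a5 a6 a7 a8 hp2
    obtain ⟨e1, -⟩ := h m f m' f' c1 c2 c3 c4 c5 c6 c7 c8 hq2
    simp only [Sigma.mk.injEq, heq_eq_eq] at heq
    obtain ⟨g1, g2, g3, g4⟩ := heq
    subst g1 g2 g4
    have g5 : n' * d = m' * d := by omega
    have g6 : n' = m' := Nat.eq_of_mul_eq_mul_right (by omega) g5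
    rw [g6]

/-- the final estimate -/
private theorem da_num {k : ℕ} (hk : 3 ≤ k) {N D Y K a b α B E C' : ℝ} (hN : 0 < N) (hD : 1 ≤ D) (hY : 1 ≤ Y) (hK : 1 ≤ K) (ha : 1 ≤ a) (hb : 1 ≤ b)
    (hα : 0 ≤ α) (hαY : α * Y ^ (k - 1) ≤ a) (hB1 : 1 / 4 ^ k ≤ B) (hB2 : B ≤ 1) (hE0 : 0 ≤ E) (hE : E ≤ K * b * Y * D ^ 2)
    (hDY : D ^ 2 ≤ 2 ^ k * Y ^ (k - 2)) (hDN : D ^ 3 * Y ^ 2 ≤ N) (hC' : 1 ≤ C') :
    C' * D ^ 2 * (N / D * α * D ^ 2 / B + B * E ^ 2 / D ^ 2 + α * (N / D) * E) ≤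
      C' * (8 ^ k + K ^ 2 + K * 2 ^ k) * (a ^ 2 * b ^ 3) * (N * D) := by
  have hD0 : 0 < D := by linarith
  have hY0 : 0 < Y := by linarith
  have hK0 : 0 < K := by linarith
  have ha0 : 0 < a := by linarith
  have hb0 : 0 < b := by linarith
  have h4k : (0 : ℝ) < 4 ^ k := by positivity
  have hB0 : 0 < B := lt_of_lt_of_le (by positivity) hB1
  have hBinv : 1 / B ≤ 4 ^ k := by
    rw [div_le_iff₀ hB0]
    have := (div_le_iff₀ h4k).1 hB1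
    linarith
  have hαD : α * D ^ 2 * Y ≤ 2 ^ k * a := by
    calc α * D ^ 2 * Y ≤ α * (2 ^ k * Y ^ (k - 2)) * Y := by gcongr
      _ = 2 ^ k * (α * Y ^ (k - 1)) := by
          rw [show k - 1 = (k - 2) + 1 by omega, pow_succ]
          ring
      _ ≤ 2 ^ k * a := by gcongr
  have hαD' : α * D ^ 2 ≤ 2 ^ k * a := by
    refine le_trans ?_ hαD
    have : 0 ≤ α * D ^ 2 := by positivity
    nlinarith
  have hND : 0 ≤ N * D := by positivity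
  have t1 : D ^ 2 * (N / D * α * D ^ 2 / B) ≤ 8 ^ k * a * (N * D) := by
    calc D ^ 2 * (N / D * α * D ^ 2 / B) = (N * D) * (α * D ^ 2) * (1 / B) := by field_simp
      _ ≤ (N * D) * (2 ^ k * a) * 4 ^ k := by gcongr
      _ = (2 * 4) ^ k * a * (N * D) := by rw [mul_pow]; ring
      _ = 8 ^ k * a * (N * D) := by norm_num
  have t2 : D ^ 2 * (B * E ^ 2 / D ^ 2) ≤ K ^ 2 * b ^ 2 * (N * D) := by
    calc D ^ 2 * (B * E ^ 2 / D ^ 2) = B * E ^ 2 := by field_simp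
      _ ≤ 1 * (K * b * Y * D ^ 2) ^ 2 := by gcongr
      _ = K ^ 2 * b ^ 2 * ((D ^ 3 * Y ^ 2) * D) := by ring
      _ ≤ K ^ 2 * b ^ 2 * (N * D) := by gcongr
  have t3 : D ^ 2 * (α * (N / D) * E) ≤ K * 2 ^ k * (a * b) * (N * D) := by
    calc D ^ 2 * (α * (N / D) * E) = (N * D) * (α * E) := by field_simp
      _ ≤ (N * D) * (α * (K * b * Y * D ^ 2)) := by gcongr
      _ = (N * D) * (K * b) * (α * D ^ 2 * Y) := by ring
      _ ≤ (N * D) * (K * b) * (2 ^ k * a) := by gcongr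
      _ = _ := by ring
  have ha1 : a ≤ a ^ 2 * b ^ 3 := by
    have h1 : a ≤ a ^ 2 := le_self_pow₀ ha (by norm_num)
    have h2 : 1 ≤ b ^ 3 := one_le_pow₀ hb
    nlinarith [sq_nonneg a]
  have hb1 : b ^ 2 ≤ a ^ 2 * b ^ 3 := by
    have h1 : b ^ 2 ≤ b ^ 3 := pow_le_pow_right₀ hb (by norm_num)
    have h2 : 1 ≤ a ^ 2 := one_le_pow₀ ha
    nlinarith [pow_pos hb0 3]
  have hab : a * b ≤ a ^ 2 * b ^ 3 := by
    have h1 : a ≤ a ^ 2 := le_self_pow₀ ha (by norm_num)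
    have h2 : b ≤ b ^ 3 := le_self_pow₀ hb (by norm_num)
    exact mul_le_mul h1 h2 hb0.le (by positivity)
  have hQ : 0 ≤ (8 : ℝ) ^ k := by positivity
  calc C' * D ^ 2 * (N / D * α * D ^ 2 / B + B * E ^ 2 / D ^ 2 + α * (N / D) * E) =
      C' * (D ^ 2 * (N / D * α * D ^ 2 / B) + D ^ 2 * (B * E ^ 2 / D ^ 2) + D ^ 2 * (α * (N / D) * E)) := by ring
    _ ≤ C' * (8 ^ k * a * (N * D) + K ^ 2 * b ^ 2 * (N * D) + K * 2 ^ k * (a * b) * (N * D)) := by gcongr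
    _ ≤ C' * (8 ^ k * (a ^ 2 * b ^ 3) * (N * D) + K ^ 2 * (a ^ 2 * b ^ 3) * (N * D) + K * 2 ^ k * (a ^ 2 * b ^ 3) * (N * D)) := by
        gcongr
    _ = _ := by ring

open Classical in
theorem all_card (k : ℕ) (hk : 3 ≤ k) : ∃ C : ℝ, 1 ≤ C ∧ ∀ (t : ℝ) (N M D Y : ℕ) (α β a b : ℝ), Par k N D Y t → M ≤ 2 * N →
    1 ≤ a → 1 ≤ b → 0 ≤ α → α ≤ 1 / 2 → α * (Y : ℝ) ^ (k - 1) ≤ a → 0 ≤ β → β ≤ 1 / 2 → β * (Y : ℝ) ^ k ≤ b →
      (((AA N M D ×ˢ AA N M D).filter fun p : (ℕ × ℕ) × (ℕ × ℕ) => zz p.1 < zz p.2 ∧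
        nrm (yy t k (zz p.1) - yy t k (zz p.2)) ≤ β ∧ nrm (xx t k (zz p.2) - xx t k (zz p.1)) ≤ α).card : ℝ) ≤
        C * (a ^ 2 * b ^ 3) * ((N : ℝ) * D) := by
  obtain ⟨C0, hC0, hgeo⟩ := geo k (by omega)
  obtain ⟨C1, hC1, hcls⟩ := cls k (by omega)
  obtain ⟨C', hC', hsum⟩ := sumE C1 hC1
  obtain ⟨K, hK⟩ : ∃ K : ℝ, K = 4 * C0 * 8 ^ (k + 1) := ⟨_, rfl⟩
  have hK1 : 1 ≤ K := by
    have : (1 : ℝ) ≤ 8 ^ (k + 1) := one_le_pow₀ (by norm_num)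
    rw [hK]
    nlinarith
  refine ⟨C' * (8 ^ k + K ^ 2 + K * 2 ^ k), ?_, ?_⟩
  · have h1 : (1 : ℝ) ≤ 8 ^ k := one_le_pow₀ (by norm_num)
    have h2 : 0 ≤ K ^ 2 + K * 2 ^ k := by positivity
    nlinarith
  intro t N M D Y α β a b hPar hM ha hb hα0 hα1 hαY hβ0 hβ1 hβY
  obtain ⟨hD, hY, hDN, ht, hp1, hp2, -, hp4, hp5, hp6⟩ := hPar
  have hDr : (1 : ℝ) ≤ D := by exact_mod_cast hD
  have hYr : (1 : ℝ) ≤ Y := by exact_mod_cast hY
  have hD0 : (0 : ℝ) < D := by linarith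
  have hDN' : (D : ℝ) ≤ N := by exact_mod_cast hDN
  have hN0 : (0 : ℝ) < N := by linarith
  have ht0 : 0 < t := by linarith
  obtain ⟨Z, hZ⟩ : ∃ Z : ℝ, Z = (N : ℝ) / D := ⟨_, rfl⟩
  have hZ1 : 1 ≤ Z := by rw [hZ, le_div_iff₀ hD0]; linarith
  have hZ0 : 0 < Z := by linarith
  have hZk : t ≤ (Z / 2) ^ k := by
    rw [hZ, div_div, div_pow, le_div_iff₀ (by positivity), mul_comm (D : ℝ) 2]
    exact hp1
  have hZk' : Z ^ k ≤ t * 4 ^ k := by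
    rw [hZ, div_pow, div_le_iff₀ (by positivity), mul_assoc, ← mul_pow]
    exact hp2
  have hZk1 : Z ^ (k + 1) ≤ t * (8 * (Y : ℝ)) ^ (k + 1) := by
    rw [hZ, div_pow, div_le_iff₀ (by positivity), mul_assoc, ← mul_pow, show 8 * (Y : ℝ) * D = 8 * D * Y by ring]
    exact hp4
  obtain ⟨E, hE⟩ : ∃ E : ℕ, E = ⌊K * b * Y * (D : ℝ) ^ 2⌋₊ := ⟨_, rfl⟩
  have hEle : (E : ℝ) ≤ K * b * Y * (D : ℝ) ^ 2 := by
    rw [hE]
    exact Nat.floor_le (by positivity)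
  -- the counting
  have hcount := da_count N M D E (2 * Z) (fun p q => zz p < zz q ∧
        nrm (yy t k (zz p) - yy t k (zz q)) ≤ β ∧ nrm (xx t k (zz q) - xx t k (zz p)) ≤ α)
    (fun d d' e n => d ∣ e + n * d' ∧ nrm (xx t k ((n : ℝ) / d + (e : ℝ) / (d * d')) - xx t k ((n : ℝ) / d)) ≤ α) hD (by
      intro n d n' d' a1 a2 a3 a4 a5 a6 a7 a8 hP
      obtain ⟨hlt, hy, hx⟩ := hP
      unfold zz at hlt hy hx
      dsimp only at hlt hy hx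
      have hd0 : (0 : ℝ) < d := by exact_mod_cast (by omega : 0 < d)
      have hd'0 : (0 : ℝ) < d' := by exact_mod_cast (by omega : 0 < d')
      have hz := da_z hD hM a1 a2 a3 a4
      have hz' := da_z hD hM a5 a6 a7 a8
      rw [← hZ] at hz hz'
      obtain ⟨z, hzd⟩ : ∃ z : ℝ, z = (n : ℝ) / d := ⟨_, rfl⟩
      obtain ⟨z', hzd'⟩ : ∃ z' : ℝ, z' = (n' : ℝ) / d' := ⟨_, rfl⟩
      have hlt' : n * d' < n' * d := by
        rw [div_lt_div_iff₀ hd0 hd'0] at hlt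
        exact_mod_cast hlt
      rw [← hzd, ← hzd'] at hlt hy hx
      rw [← hzd] at hz
      rw [← hzd'] at hz'
      have hz0 : 0 < z := by linarith
      have hy' := da_nrm hk ht0 hz0 hlt.le (hZk.trans (pow_le_pow_left₀ (by linarith) hz.1 k)) hy
      have hg := ((hgeo t Z ht0 hZ1).1 z z' hz.1 hlt.le (by linarith)).trans hy'
      have hu : z' - z ≤ C0 * 8 ^ (k + 1) * b * Y := by
        have hC00 : 0 < C0 := by linarith
        have h1 : t * (z' - z) ≤ β * C0 * Z ^ (k + 1) := by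
          rw [div_le_iff₀ hC00, div_mul_eq_mul_div, div_le_iff₀ (by positivity)] at hg
          exact hg
        have h2 : β * C0 * Z ^ (k + 1) ≤ β * C0 * (t * (8 * (Y : ℝ)) ^ (k + 1)) :=
          mul_le_mul_of_nonneg_left hZk1 (by positivity)
        have h3 : β * C0 * (t * (8 * (Y : ℝ)) ^ (k + 1)) = t * (C0 * 8 ^ (k + 1) * (β * (Y : ℝ) ^ k) * Y) := by
          rw [mul_pow, pow_succ (Y : ℝ) k]
          ring
        have h4 : t * (z' - z) ≤ t * (C0 * 8 ^ (k + 1) * (β * (Y : ℝ) ^ k) * Y) := by linarith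
        refine (le_of_mul_le_mul_left h4 ht0).trans ?_
        gcongr
      have he : (((n' * d - n * d' : ℕ) : ℕ) : ℝ) = (z' - z) * ((d : ℝ) * d') := by
        rw [Nat.cast_sub hlt'.le, hzd, hzd']
        push_cast
        field_simp
      have hdd : (d : ℝ) * d' ≤ 4 * (D : ℝ) ^ 2 := by
        have h1 : (d : ℝ) ≤ 2 * D := by exact_mod_cast a4.le
        have h2 : (d' : ℝ) ≤ 2 * D := by exact_mod_cast a8.le
        calc (d : ℝ) * d' ≤ (2 * D) * (2 * D) := mul_le_mul h1 h2 hd'0.le (by positivity)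
          _ = _ := by ring
      refine ⟨hlt', ?_, ?_, ?_, ?_⟩
      · rw [hE]
        refine Nat.le_floor ?_
        rw [he]
        calc (z' - z) * ((d : ℝ) * d') ≤ (C0 * 8 ^ (k + 1) * b * Y) * (4 * (D : ℝ) ^ 2) := by
              refine mul_le_mul hu hdd (by positivity) (by positivity)
          _ = _ := by rw [hK]; ring
      · rw [he]
        refine mul_le_mul_of_nonneg_right ?_ (by positivity)
        linarith
      · have : n' * d - n * d' + n * d' = n' * d := Nat.sub_add_cancel hlt'.le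
        rw [this]
        exact Dvd.intro_left n' rfl
      · have h1 : (n : ℝ) / d + (((n' * d - n * d' : ℕ) : ℕ) : ℝ) / (d * d') = z' := by
          rw [he, mul_div_assoc, div_self (by positivity), mul_one, ← hzd]
          ring
        rw [h1, ← hzd]
        exact hx)
  have hcount' : (((AA N M D ×ˢ AA N M D).filter fun p : (ℕ × ℕ) × (ℕ × ℕ) => zz p.1 < zz p.2 ∧
        nrm (yy t k (zz p.1) - yy t k (zz p.2)) ≤ β ∧ nrm (xx t k (zz p.2) - xx t k (zz p.1)) ≤ α).card : ℝ) ≤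
      ∑ d ∈ Ico D (2 * D), ∑ d' ∈ Ico D (2 * D), ∑ e ∈ (Icc 1 E).filter (fun e : ℕ => (e : ℝ) ≤ 2 * Z * ((d : ℝ) * d')),
        ((NN t k N M d d' e α).card : ℝ) := by
    unfold NN
    exact_mod_cast hcount
  refine hcount'.trans ?_
  have hB : 0 < t / Z ^ k := by positivity
  have hs := hsum D E Z (t / Z ^ k) α hD hZ1 hB hα0
  have hterm : ∑ d ∈ Ico D (2 * D), ∑ d' ∈ Ico D (2 * D), ∑ e ∈ (Icc 1 E).filter (fun e : ℕ => (e : ℝ) ≤ 2 * Z * ((d : ℝ) * d')),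
        ((NN t k N M d d' e α).card : ℝ) ≤
      ∑ d ∈ Ico D (2 * D), ∑ d' ∈ Ico D (2 * D), ∑ e ∈ Icc 1 E,
      (if d.gcd d' ∣ e then
        C1 * ((if t / Z ^ k * ((e : ℝ) / (d * d')) ≤ C1 * α then Z * (d.gcd d' : ℕ) else 0) + t / Z ^ k * ((e : ℝ) / (d * d')) +
          α * Z * (d.gcd d' : ℕ))
      else 0) := by
    refine sum_le_sum fun d hd => sum_le_sum fun d' hd' => ?_
    have hd1 := mem_Ico.1 hd
    have hd1' := mem_Ico.1 hd'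
    refine le_trans (sum_le_sum (g := fun e : ℕ => (if d.gcd d' ∣ e then
        C1 * ((if t / Z ^ k * ((e : ℝ) / (d * d')) ≤ C1 * α then Z * (d.gcd d' : ℕ) else 0) + t / Z ^ k * ((e : ℝ) / (d * d')) +
          α * Z * (d.gcd d' : ℕ))
      else 0)) fun e he => ?_) (sum_le_sum_of_subset_of_nonneg (filter_subset _ _) fun e _ _ => ?_)
    · obtain ⟨he1, he2⟩ := mem_filter.1 he
      rw [hZ] at he2 ⊢
      exact hcls t N M D d d' e α ht0 hD hDN hM hd1.1 hd1.2 hd1'.1 hd1'.2 (mem_Icc.1 he1).1 he2 hα0 hα1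
    · have hC10 : 0 ≤ C1 := by linarith
      split_ifs <;> positivity
  refine hterm.trans (hs.trans ?_)
  rw [hZ] at hZk' hZk ⊢
  refine da_num hk hN0 hDr hYr hK1 ha hb hα0 hαY ?_ ?_ (Nat.cast_nonneg _) hEle hp5 hp6 hC'
  · rw [div_le_div_iff₀ (by positivity) (by positivity)]
    linarith
  · rw [div_le_one (by positivity)]
    refine hZk.trans (pow_le_pow_left₀ (by positivity) ?_ k)
    have : 0 < (N : ℝ) / D := by positivity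
    linarith

end Pool.Agent.Lib.DL
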