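import Pool.Agent.Lib.DL.Defs

/-!
# DL / PX (150 lines): existence of the parameters

PROOF.  `x = N t^(-1/k) ≥ 2`, `y = N t^(-1/(k+1)) ≥ x` (`t ≥ 1`, from `1 ≤ N^(2(k+1)) ≤ t^3`).  `D = ⌊x/2⌋ ≥ 1`, so `2D ≤ x ≤ 4D`; `Y = ⌊y/(2D)⌋ ≥ 1`, so `2DY ≤ y ≤ 4DY`.  `x^k = N^k/t`, `y^(k+1) = N^(k+1)/t`.
`D ≤ x/2 ≤ N`.  `D^2 ≤ x^2/4 = N^2 t^(-2/k)/4`, `N^2 ≤ t^(3/(k+1))`, `t^(3/(k+1) - 2/k) = (t^(1/(k(k+1))))^(k-2)` and `t^(1/(k(k+1))) = y/x ≤ 4DY/(2D) = 2Y`: so `D^2 ≤ (2Y)^(k-2)/4 ≤ 2^k Y^(k-2)`.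
`D^3 Y^2 = D (DY)^2 ≤ (x/2) (y/2)^2 = x y^2/8 = N (N^2 t^(-1/k - 2/(k+1)))/8 ≤ N t^(3/(k+1) - 1/k - 2/(k+1))/8 ≤ N`.
Last two claims: `D ≥ x/4`; `D Y ≤ y/2`.
-/

set_option autoImplicit false

namespace Pool.Agent.Lib.DL

open Finset Pool.Agent.Lib.ZB Pool.Agent.Lib.HB Pool.Agent.Lib.HC

theorem par_ex (k : ℕ) (hk : 3 ≤ k) (N : ℕ) (t : ℝ) (hN : 1 ≤ N) (h0 : 0 < t) (h1 : 2 ≤ (N : ℝ) * t ^ (-(1 / (k : ℝ))))
    (h2 : (N : ℝ) ^ (2 * (k + 1)) ≤ t ^ 3) :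
    ∃ D Y : ℕ, Par k N D Y t ∧ (N : ℝ) * t ^ (-(1 / (k : ℝ))) ≤ 4 * D ∧ 2 * (D : ℝ) * Y ≤ N * t ^ (-(1 / ((k : ℝ) + 1))) := by
  have hk0 : (0 : ℝ) < k := by
    have : 0 < k := by omega
    exact_mod_cast this
  have hNr : (1 : ℝ) ≤ N := by exact_mod_cast hN
  have ht1 : 1 ≤ t := by
    by_contra h
    have h3 : t < 1 := not_le.1 h
    have h4 : t ^ 3 < 1 := pow_lt_one₀ h0.le h3 (by norm_num)
    have h5 : (1 : ℝ) ≤ (N : ℝ) ^ (2 * (k + 1)) := one_le_pow₀ hNr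
    linarith
  obtain ⟨s, hs⟩ : ∃ s : ℝ, s = t ^ (1 / ((k : ℝ) * (k + 1))) := ⟨_, rfl⟩
  have hs1 : 1 ≤ s := by
    rw [hs]
    exact Real.one_le_rpow ht1 (by positivity)
  have hs0 : 0 < s := by linarith
  have hst : s ^ (k * (k + 1)) = t := by
    rw [hs, ← Real.rpow_natCast, ← Real.rpow_mul h0.le]
    have h3 : 1 / ((k : ℝ) * (k + 1)) * ((k * (k + 1) : ℕ) : ℝ) = 1 := by
      push_cast
      field_simp
    rw [h3, Real.rpow_one]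
  have hT1 : t ^ (-(1 / (k : ℝ))) = (s ^ (k + 1))⁻¹ := by
    refine eq_inv_of_mul_eq_one_left ?_
    rw [hs, ← Real.rpow_natCast, ← Real.rpow_mul h0.le, ← Real.rpow_add h0]
    have h3 : -(1 / (k : ℝ)) + 1 / ((k : ℝ) * (k + 1)) * ((k + 1 : ℕ) : ℝ) = 0 := by
      push_cast
      field_simp
      ring
    rw [h3, Real.rpow_zero]
  have hT2 : t ^ (-(1 / ((k : ℝ) + 1))) = (s ^ k)⁻¹ := by
    refine eq_inv_of_mul_eq_one_left ?_
    rw [hs, ← Real.rpow_natCast, ← Real.rpow_mul h0.le, ← Real.rpow_add h0]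
    have h3 : -(1 / ((k : ℝ) + 1)) + 1 / ((k : ℝ) * (k + 1)) * (k : ℝ) = 0 := by
      field_simp
      ring
    rw [h3, Real.rpow_zero]
  rw [hT1] at h1 ⊢
  rw [hT2]
  obtain ⟨x, hx⟩ : ∃ x : ℝ, x = (N : ℝ) * (s ^ (k + 1))⁻¹ := ⟨_, rfl⟩
  obtain ⟨y, hy⟩ : ∃ y : ℝ, y = (N : ℝ) * (s ^ k)⁻¹ := ⟨_, rfl⟩
  rw [← hx] at h1 ⊢
  rw [← hy]
  have hx0 : 0 < x := by linarith
  have hsk : 0 < s ^ k := by positivity
  have hsk1 : 0 < s ^ (k + 1) := by positivity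
  have hxN : x * s ^ (k + 1) = N := by
    rw [hx]
    field_simp
  have hyN : y * s ^ k = N := by
    rw [hy]
    field_simp
  have hyx : y = s * x := by
    have h3 : y * s ^ k = s * x * s ^ k := by
      rw [hyN, ← hxN]
      ring
    exact mul_right_cancel₀ hsk.ne' h3
  have hxy : x ≤ y := by
    rw [hyx]
    nlinarith
  have hy0 : 0 < y := by linarith
  have hNs : (N : ℝ) ^ 2 ≤ s ^ (3 * k) := by
    have h3 : ((N : ℝ) ^ 2) ^ (k + 1) ≤ (s ^ (3 * k)) ^ (k + 1) := by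
      calc ((N : ℝ) ^ 2) ^ (k + 1) = (N : ℝ) ^ (2 * (k + 1)) := by rw [← pow_mul]
        _ ≤ t ^ 3 := h2
        _ = (s ^ (k * (k + 1))) ^ 3 := by rw [hst]
        _ = (s ^ (3 * k)) ^ (k + 1) := by
            rw [← pow_mul, ← pow_mul]
            congr 1
            ring
    exact le_of_pow_le_pow_left₀ (by omega) (by positivity) h3
  obtain ⟨D, hD⟩ : ∃ D : ℕ, D = ⌊x / 2⌋₊ := ⟨_, rfl⟩
  have hD1 : 1 ≤ D := by
    rw [hD]
    exact Nat.le_floor (by push_cast; linarith)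
  have hDr : (1 : ℝ) ≤ D := by exact_mod_cast hD1
  have hDx : 2 * (D : ℝ) ≤ x := by
    have := Nat.floor_le (show 0 ≤ x / 2 by positivity)
    rw [← hD] at this
    linarith
  have hxD : x ≤ 4 * (D : ℝ) := by
    have := Nat.lt_floor_add_one (x / 2)
    rw [← hD] at this
    linarith
  obtain ⟨Y, hY⟩ : ∃ Y : ℕ, Y = ⌊y / (2 * D)⌋₊ := ⟨_, rfl⟩
  have hD2 : (0 : ℝ) < 2 * D := by linarith
  have hY1 : 1 ≤ Y := by
    rw [hY]
    refine Nat.le_floor ?_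
    rw [le_div_iff₀ hD2]
    push_cast
    linarith
  have hYr : (1 : ℝ) ≤ Y := by exact_mod_cast hY1
  have hYy : 2 * (D : ℝ) * Y ≤ y := by
    have h3 := Nat.floor_le (show 0 ≤ y / (2 * D) by positivity)
    rw [← hY, le_div_iff₀ hD2] at h3
    linarith
  have hyY : y ≤ 4 * (D : ℝ) * Y := by
    have h3 := Nat.lt_floor_add_one (y / (2 * D))
    rw [← hY, div_lt_iff₀ hD2] at h3
    nlinarith
  have hsY : s ≤ 2 * Y := by
    have h3 : s * (2 * D) ≤ (2 * Y) * (2 * D) := by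
      calc s * (2 * (D : ℝ)) ≤ s * x := mul_le_mul_of_nonneg_left hDx hs0.le
        _ = y := hyx.symm
        _ ≤ 4 * (D : ℝ) * Y := hyY
        _ = (2 * Y) * (2 * D) := by ring
    exact le_of_mul_le_mul_right h3 hD2
  have htx : t * x ^ k = (N : ℝ) ^ k := by
    rw [← hxN, mul_pow, ← hst, ← pow_mul, mul_comm (k + 1) k]
    ring
  have hty : t * y ^ (k + 1) = (N : ℝ) ^ (k + 1) := by
    rw [← hyN, mul_pow, ← hst, ← pow_mul]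
    ring
  have hN0 : (0 : ℝ) ≤ N := by linarith
  refine ⟨D, Y, ⟨hD1, hY1, ?_, ht1, ?_, ?_, ?_, ?_, ?_, ?_⟩, hxD, hYy⟩
  · have h3 : x ≤ N := by
      rw [← hxN]
      exact le_mul_of_one_le_right hx0.le (one_le_pow₀ hs1)
    have h4 : (D : ℝ) ≤ N := by linarith
    exact_mod_cast h4
  · rw [← htx]
    gcongr
  · rw [← htx]
    gcongr
  · rw [← hty]
    gcongr
  · rw [← hty]
    have h3 : y ≤ 8 * (D : ℝ) * Y := by
      have : 0 ≤ (D : ℝ) * Y := by positivity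
      linarith
    gcongr
  · -- `D^2 ≤ 2^k Y^(k-2)`
    have h3 : (D : ℝ) ^ 2 * 4 ≤ x ^ 2 := by
      calc (D : ℝ) ^ 2 * 4 = (2 * D) ^ 2 := by ring
        _ ≤ x ^ 2 := by gcongr
    have h4 : x ^ 2 ≤ s ^ (k - 2) := by
      have h5 : x ^ 2 * s ^ (2 * (k + 1)) ≤ s ^ (k - 2) * s ^ (2 * (k + 1)) := by
        calc x ^ 2 * s ^ (2 * (k + 1)) = (x * s ^ (k + 1)) ^ 2 := by ring
          _ = (N : ℝ) ^ 2 := by rw [hxN]
          _ ≤ s ^ (3 * k) := hNs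
          _ = s ^ (k - 2) * s ^ (2 * (k + 1)) := by
              rw [← pow_add]
              congr 1
              omega
      exact le_of_mul_le_mul_right h5 (by positivity)
    have h5 : s ^ (k - 2) ≤ (2 * (Y : ℝ)) ^ (k - 2) := by gcongr
    have h6 : (2 * (Y : ℝ)) ^ (k - 2) ≤ 2 ^ k * (Y : ℝ) ^ (k - 2) := by
      rw [mul_pow]
      gcongr
      · norm_num
      · omega
    have h7 : 0 ≤ (D : ℝ) ^ 2 := by positivity
    linarith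
  · -- `D^3 Y^2 ≤ N`
    have h3 : (D : ℝ) ^ 3 * (Y : ℝ) ^ 2 * 8 ≤ x * y ^ 2 := by
      calc (D : ℝ) ^ 3 * (Y : ℝ) ^ 2 * 8 = (2 * D) * (2 * D * Y) ^ 2 := by ring
        _ ≤ x * y ^ 2 := by gcongr
    have h4 : x * y ^ 2 ≤ N := by
      have h5 : x * y ^ 2 * s ^ (3 * k + 1) ≤ N * s ^ (3 * k + 1) := by
        calc x * y ^ 2 * s ^ (3 * k + 1) = (x * s ^ (k + 1)) * (y * s ^ k) ^ 2 := by ring
          _ = N * (N : ℝ) ^ 2 := by rw [hxN, hyN]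
          _ ≤ N * s ^ (3 * k) := by gcongr
          _ ≤ N * s ^ (3 * k + 1) := by
              gcongr
              omega
      exact le_of_mul_le_mul_right h5 (by positivity)
    have h7 : 0 ≤ (D : ℝ) ^ 3 * (Y : ℝ) ^ 2 := by positivity
    linarith

end Pool.Agent.Lib.DL
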