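import Pool.Agent.Lib.DL.Defs
import Pool.Agent.Lib.ZB.A

/-!
# DL / SA (60 lines): averaging over the shifts `n ↦ n + d h`

PROOF.  As `ZB.shiftAv` (`ZB/A.lean`, copy its private lemma `A_shift`: `‖∑_{N<n≤M} f n - ∑_{N<n≤M} f (n+h)‖ ≤ 2h`): for every `d ∈ [D, 2D)`:
`‖∑ f‖ ≤ (1/Y) ∑_n ‖∑_{h<Y} f (n + d h)‖ + (1/Y) ∑_{h<Y} 2 d h ≤ .. + d Y ≤ .. + 2 D Y`.  Average over the `D` values of `d`.
-/

set_option autoImplicit false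

namespace Pool.Agent.Lib.DL

open Finset Pool.Agent.Lib.ZB Pool.Agent.Lib.HB Pool.Agent.Lib.HC

private theorem sa_tel (g : ℕ → ℂ) (N M : ℕ) (hNM : N ≤ M) :
    ∑ n ∈ Ioc N M, (g n - g (n + 1)) = g (N + 1) - g (M + 1) := by
  induction M, hNM using Nat.le_induction with
  | base => simp
  | succ M hM ih =>
    rw [Finset.sum_Ioc_succ_top hM, ih]
    ring

private theorem sa_shift (f : ℕ → ℂ) (hf : ∀ n, ‖f n‖ ≤ 1) (N M : ℕ) (hNM : N ≤ M) (h : ℕ) :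
    ‖∑ n ∈ Ioc N M, f n - ∑ n ∈ Ioc N M, f (n + h)‖ ≤ 2 * (h : ℝ) := by
  induction h with
  | zero => simp
  | succ h ih =>
    have h1 : ∑ n ∈ Ioc N M, f (n + h) - ∑ n ∈ Ioc N M, f (n + (h + 1)) =
        f (N + 1 + h) - f (M + 1 + h) := by
      have h2 := sa_tel (fun n => f (n + h)) N M hNM
      rw [← h2, ← Finset.sum_sub_distrib]
      refine Finset.sum_congr rfl fun n _ => ?_
      rw [show n + (h + 1) = n + 1 + h by ring]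
    have h3 : ∑ n ∈ Ioc N M, f n - ∑ n ∈ Ioc N M, f (n + (h + 1)) =
        (∑ n ∈ Ioc N M, f n - ∑ n ∈ Ioc N M, f (n + h)) + (f (N + 1 + h) - f (M + 1 + h)) := by
      rw [← h1]
      ring
    rw [h3]
    have h4 := norm_add_le (∑ n ∈ Ioc N M, f n - ∑ n ∈ Ioc N M, f (n + h)) (f (N + 1 + h) - f (M + 1 + h))
    have h5 := norm_sub_le (f (N + 1 + h)) (f (M + 1 + h))
    have h6 := hf (N + 1 + h)
    have h7 := hf (M + 1 + h)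
    push_cast
    linarith

private theorem sa_inner (f : ℕ → ℂ) (hf : ∀ n, ‖f n‖ ≤ 1) (N M D Y d : ℕ) (hY : 1 ≤ Y) (hNM : N ≤ M) (hd : d ∈ Ico D (2 * D)) :
    ‖∑ h ∈ range Y, (∑ n ∈ Ioc N M, f n - ∑ n ∈ Ioc N M, f (n + d * h))‖ ≤ 2 * (D : ℝ) * (Y : ℝ) ^ 2 := by
  have hd1 : (d : ℝ) ≤ 2 * D := by
    have := (mem_Ico.1 hd).2.le
    exact_mod_cast this
  have hY1 : (1 : ℝ) ≤ Y := by exact_mod_cast hY
  have hd0 : (0 : ℝ) ≤ d := Nat.cast_nonneg d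
  refine (norm_sum_le _ _).trans ?_
  refine (Finset.sum_le_sum fun h _ => sa_shift f hf N M hNM (d * h)).trans ?_
  have h3 : (∑ h ∈ range Y, (h : ℝ)) * 2 = (Y : ℝ) * (Y - 1) := by
    have h4 := Finset.sum_range_id_mul_two Y
    have h5 : (((∑ h ∈ range Y, h) * 2 : ℕ) : ℝ) = ((Y * (Y - 1) : ℕ) : ℝ) := by rw [h4]
    push_cast [Nat.cast_sub hY] at h5
    exact h5
  have h4 : ∑ h ∈ range Y, 2 * (((d * h : ℕ) : ℕ) : ℝ) = (d : ℝ) * ((∑ h ∈ range Y, (h : ℝ)) * 2) := by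
    rw [Finset.sum_mul, Finset.mul_sum]
    refine Finset.sum_congr rfl fun h _ => ?_
    push_cast
    ring
  rw [h4, h3]
  have h5 : (Y : ℝ) * (Y - 1) ≤ (Y : ℝ) ^ 2 := by nlinarith
  have h6 : 0 ≤ (Y : ℝ) * (Y - 1) := mul_nonneg (by linarith) (by linarith)
  calc (d : ℝ) * ((Y : ℝ) * (Y - 1)) ≤ (2 * D) * (Y : ℝ) ^ 2 := mul_le_mul hd1 h5 h6 (by positivity)
    _ = _ := by ring

theorem shiftD (f : ℕ → ℂ) (hf : ∀ n, ‖f n‖ ≤ 1) (N M D Y : ℕ) (hD : 1 ≤ D) (hY : 1 ≤ Y) (hNM : N ≤ M) :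
    ‖∑ n ∈ Ioc N M, f n‖ ≤ 1 / ((D : ℝ) * Y) * ∑ p ∈ AA N M D, ‖∑ h ∈ range Y, f (p.1 + p.2 * h)‖ + 2 * (D : ℝ) * Y := by
  have hD0 : (0 : ℝ) < D := by exact_mod_cast hD
  have hY0 : (0 : ℝ) < Y := by exact_mod_cast hY
  have hDY : (0 : ℝ) < (D : ℝ) * Y := mul_pos hD0 hY0
  have hcard : (Ico D (2 * D)).card = D := by
    rw [Nat.card_Ico]
    omega
  have h0 : ∑ p ∈ AA N M D, ∑ h ∈ range Y, f (p.1 + p.2 * h) =
      ∑ d ∈ Ico D (2 * D), ∑ h ∈ range Y, ∑ n ∈ Ioc N M, f (n + d * h) := by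
    unfold AA
    rw [Finset.sum_product_right]
    exact Finset.sum_congr rfl fun d _ => Finset.sum_comm
  have h1 : ((D : ℂ) * Y) * ∑ n ∈ Ioc N M, f n =
      ∑ d ∈ Ico D (2 * D), ∑ h ∈ range Y, (∑ n ∈ Ioc N M, f n - ∑ n ∈ Ioc N M, f (n + d * h)) +
        ∑ p ∈ AA N M D, ∑ h ∈ range Y, f (p.1 + p.2 * h) := by
    rw [h0, ← Finset.sum_add_distrib]
    have h2 : ∀ d ∈ Ico D (2 * D), (∑ h ∈ range Y, (∑ n ∈ Ioc N M, f n - ∑ n ∈ Ioc N M, f (n + d * h)) +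
        ∑ h ∈ range Y, ∑ n ∈ Ioc N M, f (n + d * h)) = (Y : ℂ) * ∑ n ∈ Ioc N M, f n := by
      intro d _
      rw [Finset.sum_sub_distrib, Finset.sum_const, card_range, nsmul_eq_mul]
      ring
    rw [Finset.sum_congr rfl h2, Finset.sum_const, hcard, nsmul_eq_mul]
    ring
  have h2 : ‖∑ d ∈ Ico D (2 * D), ∑ h ∈ range Y, (∑ n ∈ Ioc N M, f n - ∑ n ∈ Ioc N M, f (n + d * h))‖ ≤
      (D : ℝ) * (2 * (D : ℝ) * (Y : ℝ) ^ 2) := by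
    refine (norm_sum_le _ _).trans ?_
    refine (Finset.sum_le_sum fun d hd => sa_inner f hf N M D Y d hY hNM hd).trans ?_
    rw [Finset.sum_const, hcard, nsmul_eq_mul]
  have h6 : ((D : ℝ) * Y) * ‖∑ n ∈ Ioc N M, f n‖ ≤
      (D : ℝ) * (2 * (D : ℝ) * (Y : ℝ) ^ 2) + ∑ p ∈ AA N M D, ‖∑ h ∈ range Y, f (p.1 + p.2 * h)‖ := by
    have h7 : ((D : ℝ) * Y) * ‖∑ n ∈ Ioc N M, f n‖ = ‖((D : ℂ) * Y) * ∑ n ∈ Ioc N M, f n‖ := by
      rw [norm_mul, norm_mul, Complex.norm_natCast, Complex.norm_natCast]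
    rw [h7, h1]
    exact (norm_add_le _ _).trans (add_le_add h2 (norm_sum_le _ _))
  have h8 : ‖∑ n ∈ Ioc N M, f n‖ ≤
      ((D : ℝ) * (2 * (D : ℝ) * (Y : ℝ) ^ 2) + ∑ p ∈ AA N M D, ‖∑ h ∈ range Y, f (p.1 + p.2 * h)‖) / ((D : ℝ) * Y) := by
    rw [le_div_iff₀ hDY]
    linarith
  refine h8.trans (le_of_eq ?_)
  rw [add_div, add_comm]
  congr 1
  · rw [one_div, div_eq_inv_mul]
  · field_simp

end Pool.Agent.Lib.DL
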