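import Pool.Agent.Lib.DL.FD
import Pool.Agent.Lib.DL.TD
import Pool.Agent.Lib.DL.SA
import Pool.Agent.Lib.DL.PX
import Pool.Agent.Lib.HB.FB

/-!
# DL / BD (200 lines): the new estimate

PROOF.  `t ≥ 1` (from `1 ≤ N^(2(k+1)) ≤ t^3`).  `x = N t^(-1/k) ≥ 1` (`t ≤ N^k`), `R = (N^2 t^(-1/k))^(-1/(k(k+1)))`, `N^2 t^(-1/k) = N x`.
Case `x < 2`: `hblk` (`HB/FB.lean`) with `q = k + 1` (`N ≤ t`: `N^(2(k+1)) ≤ t^3` and `2(k+1) ≥ 3`): the three terms are `≤ C R`: `N x ≤ 2N` gives `R ≥ (2N)^(-1/(k(k+1)))`, so `N^(-1/(q(q-1))) ≤ 2 R`;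
`t/N^q ≤ 1/N` (`t ≤ N^k`) gives the first; third: `t^(-2/(q^2 (q-1)))`, `t^(1/k) ≥ N/2`, `2k/((k+1)^2 k) ≥ 1/(k(k+1))`, i.e. `2k ≥ k+1`: `t^(-2/((k+1)^2 k)) ≤ (N/2)^(-2/(k+1)^2) ≤ 2 N^(-1/(k(k+1)))`
(`2/(k+1)^2 ≥ 1/(k(k+1))`).
Case `x ≥ 2`: `par_ex`, `shiftD` with `f n = n^(-it)`, `blockTD` (`Par`: `t (2DY)^(k+1) ≤ N^(k+1)`, `d < 2D`, `n > N`), completion `complH` with the weights `lamC` (exactly as in `HC/BJ.lean`), `firstD` with
`w h = e (h r/Y)`: `‖S‖ ≤ C N^ε (N D)^(1 - 1/(k(k+1)))/D + 2DY`; `(N D)^(-1/(k(k+1))) ≤ (N x/4)^(-1/(k(k+1))) ≤ 4 R`.  `2DY ≤ N t^(-1/(k+1)) ≤ N R` because `N x = N^2 t^(-1/k) ≤ N^2 ≤ t^(3/(k+1)) ≤ t^k`,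
so `R ≥ (t^k)^(-1/(k(k+1))) = t^(-1/(k+1))`.
-/

set_option autoImplicit false

namespace Pool.Agent.Lib.DL

open Finset Pool.Agent.Lib.ZB Pool.Agent.Lib.HB Pool.Agent.Lib.HC

private theorem bd_norm {t : ℝ} (ht : 0 < t) (n : ℕ) : ‖(n : ℂ) ^ (-((t : ℂ) * Complex.I))‖ ≤ 1 := by
  rcases Nat.eq_zero_or_pos n with h | h
  · rw [h, Nat.cast_zero, Complex.zero_cpow, norm_zero]
    · exact zero_le_one
    · rw [neg_ne_zero]
      exact mul_ne_zero (Complex.ofReal_ne_zero.2 ht.ne') Complex.I_ne_zero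
  · rw [Complex.norm_natCast_cpow_of_pos h]
    simp

/-- `(c y)^(-m)` and `y^(-m)` -/
private theorem bd_scale {c y m : ℝ} (hc : 0 < c) (hy : 0 < y) : y ^ (-m) = c ^ m * (c * y) ^ (-m) := by
  rw [Real.mul_rpow hc.le hy.le, ← mul_assoc, ← Real.rpow_add hc, add_neg_cancel, Real.rpow_zero, one_mul]

private theorem bd_pow_le {c m : ℝ} (hc : 1 ≤ c) (hm : m ≤ 1) : c ^ m ≤ c := by
  calc c ^ m ≤ c ^ (1 : ℝ) := Real.rpow_le_rpow_of_exponent_le hc hm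
    _ = c := Real.rpow_one c

/-- the case `x < 2`: the three terms of `hblk` -/
private theorem bd_small {k N : ℕ} (hk : 3 ≤ k) (hN : 1 ≤ N) {t m x R : ℝ} (ht : 1 ≤ t) (htN : t ≤ (N : ℝ) ^ k)
    (hm : m = 1 / ((k : ℝ) * (k + 1))) (hx : x = N * t ^ (-(1 / (k : ℝ)))) (hR : R = (N * x) ^ (-m)) (hx2 : x < 2) :
    (t / (N : ℝ) ^ (k + 1)) ^ m + (N : ℝ) ^ (-m) + t ^ (1 / (k : ℝ) * (-(2 / ((k : ℝ) + 1) ^ 2))) ≤ 8 * R := by
  have hkr : (3 : ℝ) ≤ k := by exact_mod_cast hk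
  have hk0 : (0 : ℝ) < k := by linarith
  have hN1 : (1 : ℝ) ≤ N := by exact_mod_cast hN
  have hN0 : (0 : ℝ) < N := by linarith
  have ht0 : 0 < t := by linarith
  have hm0 : 0 < m := by
    rw [hm]
    positivity
  have hm1 : m ≤ 1 := by
    rw [hm, div_le_one (by positivity)]
    nlinarith
  have hx0 : 0 < x := by
    rw [hx]
    positivity
  have hNm : (N : ℝ) ^ (-m) ≤ 2 * R := by
    rw [bd_scale (c := 2) (by norm_num) hN0, hR]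
    have h1 : (2 * (N : ℝ)) ^ (-m) ≤ (N * x) ^ (-m) := by
      refine Real.rpow_le_rpow_of_nonpos (by positivity) ?_ (by linarith)
      nlinarith
    exact mul_le_mul (bd_pow_le (by norm_num) hm1) h1 (by positivity) (by norm_num)
  have h1 : (t / (N : ℝ) ^ (k + 1)) ^ m ≤ (N : ℝ) ^ (-m) := by
    rw [Real.rpow_neg hN0.le, ← Real.inv_rpow hN0.le]
    refine Real.rpow_le_rpow (by positivity) ?_ hm0.le
    rw [div_le_iff₀ (by positivity), pow_succ]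
    calc t ≤ (N : ℝ) ^ k := htN
      _ = (N : ℝ)⁻¹ * ((N : ℝ) ^ k * N) := by
          field_simp
  obtain ⟨s, hs⟩ : ∃ s : ℝ, s = 2 / ((k : ℝ) + 1) ^ 2 := ⟨_, rfl⟩
  have hs0 : 0 < s := by
    rw [hs]
    positivity
  have hs1 : s ≤ 1 := by
    rw [hs, div_le_one (by positivity)]
    nlinarith
  have hsm : m ≤ s := by
    rw [hm, hs, div_le_div_iff₀ (by positivity) (by positivity)]
    nlinarith
  have h3 : t ^ (1 / (k : ℝ) * (-(2 / ((k : ℝ) + 1) ^ 2))) ≤ 2 * (N : ℝ) ^ (-m) := by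
    rw [← hs, Real.rpow_mul ht0.le]
    have h4 : (N : ℝ) / 2 ≤ t ^ (1 / (k : ℝ)) := by
      have h5 : t ^ (-(1 / (k : ℝ))) * t ^ (1 / (k : ℝ)) = 1 := by
        rw [← Real.rpow_add ht0, neg_add_cancel, Real.rpow_zero]
      have h6 : 0 < t ^ (1 / (k : ℝ)) := by positivity
      have h7 : (N : ℝ) = x * t ^ (1 / (k : ℝ)) := by
        rw [hx, mul_assoc, h5, mul_one]
      nlinarith
    calc (t ^ (1 / (k : ℝ))) ^ (-s) ≤ ((N : ℝ) / 2) ^ (-s) :=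
          Real.rpow_le_rpow_of_nonpos (by positivity) h4 (by linarith)
      _ = (2 : ℝ) ^ s * (N : ℝ) ^ (-s) := by
          rw [bd_scale (c := 2) (y := (N : ℝ) / 2) (by norm_num) (by positivity)]
          congr 2
          ring
      _ ≤ 2 * (N : ℝ) ^ (-m) :=
          mul_le_mul (bd_pow_le (by norm_num) hs1) (Real.rpow_le_rpow_of_exponent_le hN1 (by linarith)) (by positivity)
            (by norm_num)
  linarith

theorem hblkD (hV : VMV) (k : ℕ) (hk : 3 ≤ k) : HDB k := by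
  intro ε hε
  obtain ⟨CA, hCA, hA⟩ := hblk hV (k + 1) (by omega) hε
  obtain ⟨C1, hC1, hfirst⟩ := firstD hV k hk (ε := ε / 2) (by positivity)
  refine ⟨8 * CA + (8 * (2 + 2 / ε) * C1 + 1), by positivity, ?_⟩
  intro N M hN hNM hM t htN hNt
  have hkr : (3 : ℝ) ≤ k := by exact_mod_cast hk
  have hk0 : (0 : ℝ) < k := by linarith
  have hN1 : (1 : ℝ) ≤ N := by exact_mod_cast hN
  have hN0 : (0 : ℝ) < N := by linarith
  have ht1 : 1 ≤ t := by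
    by_contra h
    have h2 : t < 1 := not_le.1 h
    have h1 : (1 : ℝ) ≤ t ^ 3 := (one_le_pow₀ hN1).trans hNt
    rcases le_or_gt 0 t with h0 | h0
    · have := pow_lt_one₀ h0 h2 (by norm_num : (3 : ℕ) ≠ 0)
      linarith
    · have : t ^ 3 < 0 := Odd.pow_neg (by decide) h0
      linarith
  have ht0 : 0 < t := by linarith
  obtain ⟨m, hm⟩ : ∃ m : ℝ, m = 1 / ((k : ℝ) * (k + 1)) := ⟨_, rfl⟩
  have hm0 : 0 < m := by
    rw [hm]
    positivity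
  have hm1 : m ≤ 1 := by
    rw [hm, div_le_one (by positivity)]
    nlinarith
  obtain ⟨x, hx⟩ : ∃ x : ℝ, x = N * t ^ (-(1 / (k : ℝ))) := ⟨_, rfl⟩
  have hx0 : 0 < x := by
    rw [hx]
    positivity
  have hNx : (N : ℝ) ^ 2 * t ^ (-(1 / (k : ℝ))) = N * x := by
    rw [hx]
    ring
  rw [hNx, ← hm]
  obtain ⟨R, hR⟩ : ∃ R : ℝ, R = (N * x) ^ (-m) := ⟨_, rfl⟩
  rw [← hR]
  have hR0 : 0 < R := by
    rw [hR]
    positivity
  have hNε : (1 : ℝ) ≤ (N : ℝ) ^ ε := Real.one_le_rpow hN1 hε.le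
  have hN1ε : (N : ℝ) ^ (1 + ε) = N * (N : ℝ) ^ ε := by rw [Real.rpow_add hN0, Real.rpow_one]
  have hT0 : 0 ≤ (N : ℝ) ^ (1 + ε) * R := by positivity
  rcases lt_or_ge x 2 with hcase | hcase
  · -- the case `x < 2`
    have hNt' : (N : ℝ) ≤ t := by
      have h1 : (N : ℝ) ^ 3 ≤ t ^ 3 := (pow_le_pow_right₀ hN1 (by omega : 3 ≤ 2 * (k + 1))).trans hNt
      exact (pow_le_pow_iff_left₀ hN0.le ht0.le (by norm_num)).1 h1
    have h1 := hA N M hN hNM hM t hNt'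
    have e1 : 1 / (((k + 1 : ℕ) : ℝ) * (((k + 1 : ℕ) : ℝ) - 1)) = m := by
      rw [hm]
      push_cast
      congr 1
      ring
    have e2 : -(2 / (((k + 1 : ℕ) : ℝ) ^ 2 * (((k + 1 : ℕ) : ℝ) - 1))) = 1 / (k : ℝ) * (-(2 / ((k : ℝ) + 1) ^ 2)) := by
      push_cast
      rw [add_sub_cancel_right]
      field_simp
    rw [e1, e2] at h1
    have h2 := bd_small hk hN ht1 htN hm hx hR hcase
    have h3 : 0 ≤ CA * (N : ℝ) ^ (1 + ε) := by positivity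
    have h4 := mul_le_mul_of_nonneg_left h2 h3
    have h5 : 0 ≤ (8 * (2 + 2 / ε) * C1 + 1) * ((N : ℝ) ^ (1 + ε) * R) := by positivity
    calc _ ≤ CA * (N : ℝ) ^ (1 + ε) * (8 * R) := h1.trans h4
      _ ≤ CA * (N : ℝ) ^ (1 + ε) * (8 * R) + (8 * (2 + 2 / ε) * C1 + 1) * ((N : ℝ) ^ (1 + ε) * R) := by linarith
      _ = _ := by ring
  -- the case `x ≥ 2`
  obtain ⟨D, Y, hPar, hxD, hDY⟩ := par_ex k hk N t hN ht0 (by rw [← hx]; exact hcase) hNt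
  rw [← hx] at hxD
  have hPar' := hPar
  unfold Par at hPar'
  obtain ⟨hD1, hY1, hDN, -, -, -, hP7, -, -, hP10⟩ := hPar'
  have hDr : (1 : ℝ) ≤ D := by exact_mod_cast hD1
  have hYr : (1 : ℝ) ≤ Y := by exact_mod_cast hY1
  have hD0 : (0 : ℝ) < D := by linarith
  have hY0 : (0 : ℝ) < Y := by linarith
  -- the sums
  have hsh := shiftD (fun n => (n : ℂ) ^ (-((t : ℂ) * Complex.I))) (fun n => bd_norm ht0 n) N M D Y hD1 hY1 hNM
  have hblock : ∀ p ∈ AA N M D, ‖∑ h ∈ range Y, ((p.1 + p.2 * h : ℕ) : ℂ) ^ (-((t : ℂ) * Complex.I))‖ ≤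
      2 * ∑ r ∈ range Y, lamC Y r * ‖∑ h ∈ range Y, e ((h : ℝ) * r / Y) * e (ph k (cd t p) h)‖ := by
    intro p hp
    unfold AA at hp
    rw [mem_product, mem_Ioc, mem_Ico] at hp
    obtain ⟨⟨hn1, hn2⟩, hd1, hd2⟩ := hp
    refine blockTD k t ht0.le p.1 p.2 Y (by omega) (by omega) ?_ _ ?_
    · have hd : (p.2 : ℝ) ≤ 2 * D := by exact_mod_cast hd2.le
      have hnN : (N : ℝ) ≤ p.1 := by exact_mod_cast hn1.le
      calc t * ((p.2 : ℝ) * Y) ^ (k + 1) ≤ t * (2 * (D : ℝ) * Y) ^ (k + 1) := by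
            refine mul_le_mul_of_nonneg_left (pow_le_pow_left₀ (by positivity) ?_ _) ht0.le
            exact mul_le_mul_of_nonneg_right hd hY0.le
        _ ≤ (N : ℝ) ^ (k + 1) := hP7
        _ ≤ (p.1 : ℝ) ^ (k + 1) := pow_le_pow_left₀ hN0.le hnN _
    · intro Y' hY'
      refine (complH Y (fun h => e (ph k (cd t p) h)) Y' hY').trans (le_of_eq ?_)
      refine sum_congr rfl fun r _ => ?_
      congr 2
      exact sum_congr rfl fun h _ => mul_comm _ _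
  have hfi : ∀ r ∈ range Y, ∑ p ∈ AA N M D, ‖∑ h ∈ range Y, e ((h : ℝ) * r / Y) * e (ph k (cd t p) h)‖ ≤
      C1 * (Y : ℝ) * (N : ℝ) ^ (ε / 2) * ((N : ℝ) * D) * ((N : ℝ) * D) ^ (-m) := by
    intro r _
    have h1 := hfirst N M D Y t hPar hM (fun h => e ((h : ℝ) * r / Y)) (fun h => (norm_e _).le)
    rw [← hm] at h1
    exact h1
  have hYN : (Y : ℝ) ≤ N := by
    refine le_trans ?_ hP10
    have h1 : (1 : ℝ) ≤ (D : ℝ) ^ 3 := one_le_pow₀ hDr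
    have h2 : (Y : ℝ) ≤ (Y : ℝ) ^ 2 := by nlinarith
    exact h2.trans (le_mul_of_one_le_left (by positivity) h1)
  have hlog : 2 + Real.log Y ≤ (2 + 2 / ε) * (N : ℝ) ^ (ε / 2) := by
    have h1 : Real.log Y ≤ Real.log N := Real.log_le_log hY0 hYN
    have h2 : Real.log N ≤ (N : ℝ) ^ (ε / 2) / (ε / 2) := Real.log_le_rpow_div hN0.le (by positivity)
    have h3 : (1 : ℝ) ≤ (N : ℝ) ^ (ε / 2) := Real.one_le_rpow hN1 (by positivity)
    have h4 : (N : ℝ) ^ (ε / 2) / (ε / 2) = 2 / ε * (N : ℝ) ^ (ε / 2) := by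
      field_simp
    rw [h4] at h2
    nlinarith
  have hlogY : 0 ≤ 2 + Real.log Y := by
    have := Real.log_natCast_nonneg Y
    linarith
  have hsum : ∑ p ∈ AA N M D, ‖∑ h ∈ range Y, ((p.1 + p.2 * h : ℕ) : ℂ) ^ (-((t : ℂ) * Complex.I))‖ ≤
      2 * ((2 + Real.log Y) * (C1 * (Y : ℝ) * (N : ℝ) ^ (ε / 2) * ((N : ℝ) * D) * ((N : ℝ) * D) ^ (-m))) := by
    refine (sum_le_sum hblock).trans ?_
    rw [← mul_sum, sum_comm]
    refine mul_le_mul_of_nonneg_left ?_ (by norm_num)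
    calc ∑ r ∈ range Y, ∑ p ∈ AA N M D, lamC Y r * ‖∑ h ∈ range Y, e ((h : ℝ) * r / Y) * e (ph k (cd t p) h)‖ =
        ∑ r ∈ range Y, lamC Y r * ∑ p ∈ AA N M D, ‖∑ h ∈ range Y, e ((h : ℝ) * r / Y) * e (ph k (cd t p) h)‖ :=
          sum_congr rfl fun r _ => by rw [mul_sum]
      _ ≤ ∑ r ∈ range Y, lamC Y r * (C1 * (Y : ℝ) * (N : ℝ) ^ (ε / 2) * ((N : ℝ) * D) * ((N : ℝ) * D) ^ (-m)) :=
          sum_le_sum fun r hr => mul_le_mul_of_nonneg_left (hfi r hr) (lamC_nonneg Y r (mem_range.1 hr))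
      _ = (∑ r ∈ range Y, lamC Y r) * (C1 * (Y : ℝ) * (N : ℝ) ^ (ε / 2) * ((N : ℝ) * D) * ((N : ℝ) * D) ^ (-m)) := by
          rw [sum_mul]
      _ ≤ (2 + Real.log Y) * (C1 * (Y : ℝ) * (N : ℝ) ^ (ε / 2) * ((N : ℝ) * D) * ((N : ℝ) * D) ^ (-m)) :=
          mul_le_mul_of_nonneg_right (lamC_sum Y hY1) (by positivity)
  have hT : ((N : ℝ) * D) ^ (-m) ≤ 4 * R := by
    rw [bd_scale (c := 4) (by norm_num) (by positivity), hR]
    have h1 : (4 * ((N : ℝ) * D)) ^ (-m) ≤ (N * x) ^ (-m) := by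
      refine Real.rpow_le_rpow_of_nonpos (by positivity) ?_ (by linarith)
      have h2 := mul_le_mul_of_nonneg_left hxD hN0.le
      linarith
    exact mul_le_mul (bd_pow_le (by norm_num) hm1) h1 (by positivity) (by norm_num)
  have hNxt : (N : ℝ) * x ≤ t ^ k := by
    have h1 : x ≤ N := by
      rw [hx]
      refine mul_le_of_le_one_right hN0.le (Real.rpow_le_one_of_one_le_of_nonpos ht1 ?_)
      rw [neg_nonpos]
      positivity
    have h2 : (N : ℝ) * x ≤ (N : ℝ) ^ 2 := by nlinarith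
    have h3 : ((N : ℝ) ^ 2) ^ (k + 1) ≤ (t ^ k) ^ (k + 1) := by
      rw [← pow_mul, ← pow_mul]
      refine hNt.trans (pow_le_pow_right₀ ht1 ?_)
      have h4 : 1 * 3 ≤ (k + 1) * k := Nat.mul_le_mul (by omega) hk
      rw [mul_comm k (k + 1)]
      omega
    exact h2.trans ((pow_le_pow_iff_left₀ (by positivity) (by positivity) (by omega)).1 h3)
  have hRt : t ^ (-(1 / ((k : ℝ) + 1))) ≤ R := by
    have h1 : (t ^ k) ^ (-m) ≤ (N * x) ^ (-m) := Real.rpow_le_rpow_of_nonpos (by positivity) hNxt (by linarith)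
    have h2 : (t ^ k) ^ (-m) = t ^ (-(1 / ((k : ℝ) + 1))) := by
      rw [← Real.rpow_natCast, ← Real.rpow_mul ht0.le]
      congr 1
      rw [hm]
      field_simp
    rw [hR, ← h2]
    exact h1
  have hNN : (N : ℝ) ^ (1 + ε) = N * ((N : ℝ) ^ (ε / 2) * (N : ℝ) ^ (ε / 2)) := by
    rw [hN1ε, ← Real.rpow_add hN0]
    congr 2
    ring
  have hend : 2 * (D : ℝ) * Y ≤ (N : ℝ) ^ (1 + ε) * R := by
    refine hDY.trans ?_
    rw [hN1ε]
    calc (N : ℝ) * t ^ (-(1 / ((k : ℝ) + 1))) ≤ N * R := mul_le_mul_of_nonneg_left hRt hN0.le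
      _ ≤ N * (N : ℝ) ^ ε * R := by
          refine mul_le_mul_of_nonneg_right ?_ hR0.le
          exact le_mul_of_one_le_right hN0.le hNε
  calc _ ≤ 1 / ((D : ℝ) * Y) * ∑ p ∈ AA N M D, ‖∑ h ∈ range Y, ((p.1 + p.2 * h : ℕ) : ℂ) ^ (-((t : ℂ) * Complex.I))‖ +
        2 * (D : ℝ) * Y := hsh
    _ ≤ 1 / ((D : ℝ) * Y) * (2 * ((2 + Real.log Y) *
          (C1 * (Y : ℝ) * (N : ℝ) ^ (ε / 2) * ((N : ℝ) * D) * ((N : ℝ) * D) ^ (-m)))) + 2 * (D : ℝ) * Y := by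
        have := mul_le_mul_of_nonneg_left hsum (by positivity : 0 ≤ 1 / ((D : ℝ) * Y))
        linarith
    _ = 2 * ((2 + Real.log Y) * (C1 * (N : ℝ) ^ (ε / 2) * N * ((N : ℝ) * D) ^ (-m))) + 2 * (D : ℝ) * Y := by
        field_simp
    _ ≤ 2 * ((2 + 2 / ε) * (N : ℝ) ^ (ε / 2) * (C1 * (N : ℝ) ^ (ε / 2) * N * (4 * R))) + (N : ℝ) ^ (1 + ε) * R := by
        have h1 : 0 ≤ C1 * (N : ℝ) ^ (ε / 2) * N := by positivity
        have h2 := mul_le_mul_of_nonneg_left hT h1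
        have h3 : 0 ≤ C1 * (N : ℝ) ^ (ε / 2) * N * ((N : ℝ) * D) ^ (-m) := by positivity
        have h4 := mul_le_mul hlog h2 h3 (by positivity)
        linarith
    _ = (8 * (2 + 2 / ε) * C1 + 1) * ((N : ℝ) ^ (1 + ε) * R) := by
        rw [hNN]
        ring
    _ ≤ (8 * (2 + 2 / ε) * C1 + 1) * ((N : ℝ) ^ (1 + ε) * R) + 8 * CA * ((N : ℝ) ^ (1 + ε) * R) := by
        have : 0 ≤ 8 * CA * ((N : ℝ) ^ (1 + ε) * R) := by positivity
        linarith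
    _ = _ := by ring

end Pool.Agent.Lib.DL
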