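import Pool.Agent.Lib.DL.Geo
import Pool.Agent.Lib.HB.CM

/-!
# DL / Cls (170 lines): the number of `n` for fixed `d, d', e`

PROOF.  `g = gcd d d'`, `d1 = d/g`, `Z = N/D`, `B = t/Z^k`, `u = e/(d d')`, `F n = xx (n/d + u) - xx (n/d)`, `n/d ∈ [Z/2, 2Z]`, `0 < u ≤ 2Z`.
(0) `d ∣ e + n d'` implies `g ∣ e` (`g ∣ d`, `g ∣ d'`), so the set is empty if not `g ∣ e`.  (1) If `g ∣ e`: any two members `n, m` satisfy `d ∣ (n - m) d'`, so `d1 ∣ n - m`
(`d/g` and `d'/g` coprime): all members lie in one class mod `d1`: with `n0` the least member every member is `n0 + d1 v`, `v < U`, `U = (M - n0)/d1 + 1 ≤ N/d1 + 1 ≤ 2 Z g`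
(`d1 ≥ D/g`, `Z g ≥ 1`).  (2) Geo (2): `B u/C ≤ F n ≤ C B u`.  If `C B u < 1/2`: then `nrm (F n) = F n ≥ B u/C`, so a member exists only if `B u ≤ C α`, and the number is
`≤ U ≤ 2 Z g`: first term.  (3) If `C B u ≥ 1/2`: `count_mono` with `z v = F (n0 + d1 v)`, `σ = -1`, `mu = B/Z * u * (1/g)/C` (Geo (3), `z2 - z = d1/d = 1/g`,
`t/Z^(k+1) = B/Z`), `R = C B u` (all `F` in `[0, C B u]`), `ρ = α`, `β = 0`: `≤ (C B u + 2) (1 + 2 α C Z g/(B u)) ≤ 5 C B u (1 + 2 α C Z g/(B u)) = 5 C B u + 10 C^2 α Z g`.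
-/

set_option autoImplicit false

namespace Pool.Agent.Lib.DL

open Finset Pool.Agent.Lib.ZB Pool.Agent.Lib.HB Pool.Agent.Lib.HC

private theorem cls_dvd {d d' e n m : ℕ} (hd : 1 ≤ d) (h1 : d ∣ e + n * d') (h2 : d ∣ e + m * d')
    (hnm : n ≤ m) : d / d.gcd d' ∣ m - n := by
  have h3 : d ∣ (m - n) * d' := by
    have e1 : e + m * d' = e + n * d' + (m - n) * d' := by
      rw [add_assoc, ← add_mul, Nat.add_sub_cancel' hnm]
    rw [e1] at h2
    exact (Nat.dvd_add_right h1).1 h2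
  have hg : 0 < d.gcd d' := Nat.gcd_pos_of_pos_left _ hd
  have hco := Nat.coprime_div_gcd_div_gcd hg
  have h4 : d / d.gcd d' ∣ (m - n) * (d' / d.gcd d') := by
    have h5 := Nat.div_dvd_div (Nat.gcd_dvd_left d d') h3
    rwa [Nat.mul_div_assoc _ (Nat.gcd_dvd_right d d')] at h5
  exact hco.dvd_of_dvd_mul_right h4

private theorem nrm_small {x : ℝ} (h0 : 0 ≤ x) (h1 : x < 1 / 2) : nrm x = x := by
  unfold nrm
  rw [round_eq_zero_iff.2 ⟨by linarith, h1⟩, Int.cast_zero, sub_zero, abs_of_nonneg h0]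

private theorem mem_NN {t : ℝ} {k N M d d' e : ℕ} {α : ℝ} {n : ℕ} : n ∈ NN t k N M d d' e α ↔
    (N < n ∧ n ≤ M) ∧ d ∣ e + n * d' ∧
      nrm (xx t k ((n : ℝ) / d + (e : ℝ) / (d * d')) - xx t k ((n : ℝ) / d)) ≤ α := by
  unfold NN
  rw [mem_filter, mem_Ioc]

/-- the real inequality of the second case -/
private theorem cls_real {R α P C B Z g u : ℝ} (hC : 1 ≤ C) (hB : 0 < B) (hu : 0 < u) (hZ : 0 < Z) (hg : 0 < g)
    (hα0 : 0 ≤ α) (hα1 : α ≤ 1 / 2) (hR : R = C * (B * u)) (hR1 : 1 / 2 ≤ R)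
    (hP : P ≤ (R + 2 * α + 1) * (1 + 2 * α / (B / Z * u * (1 / g) / C))) :
    P ≤ 10 * C ^ 2 * (B * u + α * Z * g) := by
  have h1 : 1 + 2 * α / (B / Z * u * (1 / g) / C) = 1 + 2 * α * (C * Z * g / (B * u)) := by
    field_simp
  rw [h1] at hP
  have h2 : 0 ≤ C * Z * g / (B * u) := by positivity
  have h3 : (R + 2 * α + 1) * (1 + 2 * α * (C * Z * g / (B * u))) ≤
      5 * R * (1 + 2 * α * (C * Z * g / (B * u))) := by
    apply mul_le_mul_of_nonneg_right
    · linarith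
    · have : 0 ≤ 2 * α * (C * Z * g / (B * u)) := by positivity
      linarith
  have h4 : 5 * R * (1 + 2 * α * (C * Z * g / (B * u))) = 5 * C * (B * u) + 10 * C ^ 2 * (α * Z * g) := by
    rw [hR]
    field_simp
    ring
  have h5 : 5 * C * (B * u) ≤ 10 * C ^ 2 * (B * u) := by
    apply mul_le_mul_of_nonneg_right _ (by positivity)
    nlinarith
  rw [h4] at h3
  linarith

open Classical in
private theorem cls_key (k : ℕ) (C0 t Z B u α : ℝ) (N M D d d' e g : ℕ) (hg : g = d.gcd d') (hZ : Z = (N : ℝ) / D)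
    (hB : B = t / Z ^ k) (hu : u = (e : ℝ) / (d * d')) (ht : 0 < t) (hC0 : 1 ≤ C0)
    (geo2 : ∀ u z : ℝ, 0 ≤ u → u ≤ 2 * Z → Z / 2 ≤ z → z ≤ 2 * Z → t / Z ^ k * u / C0 ≤ xx t k (z + u) - xx t k z ∧
      xx t k (z + u) - xx t k z ≤ C0 * (t / Z ^ k * u))
    (geo3 : ∀ u z z2 : ℝ, 0 ≤ u → u ≤ 2 * Z → Z / 2 ≤ z → z ≤ z2 → z2 ≤ 2 * Z →
      t / Z ^ (k + 1) * u * (z2 - z) / C0 ≤ (xx t k (z + u) - xx t k z) - (xx t k (z2 + u) - xx t k z2))
    (hD : 1 ≤ D) (hDN : D ≤ N) (hM : M ≤ 2 * N) (hd1 : D ≤ d) (hd2 : d < 2 * D) (hd1' : D ≤ d') (hd2' : d' < 2 * D)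
    (he : 1 ≤ e) (he2 : u ≤ 2 * Z) (hα0 : 0 ≤ α) (hα1 : α ≤ 1 / 2) :
    ((NN t k N M d d' e α).card : ℝ) ≤
      10 * C0 ^ 2 * ((if B * u ≤ 10 * C0 ^ 2 * α then Z * g else 0) + B * u + α * Z * g) := by
  have hdpos : 1 ≤ d := hD.trans hd1
  have hg0 : 0 < g := by
    rw [hg]
    exact Nat.gcd_pos_of_pos_left _ hdpos
  have hgd : g ∣ d := by
    rw [hg]
    exact Nat.gcd_dvd_left d d'
  have hD' : (1 : ℝ) ≤ D := by exact_mod_cast hD
  have hD0 : (0 : ℝ) < D := by linarith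
  have hDN' : (D : ℝ) ≤ N := by exact_mod_cast hDN
  have hdD : (D : ℝ) ≤ d := by exact_mod_cast hd1
  have hd0 : (0 : ℝ) < d := by linarith
  have hdD' : (d : ℝ) ≤ 2 * D := by exact_mod_cast hd2.le
  have hd'0 : (0 : ℝ) < d' := by
    have : (D : ℝ) ≤ d' := by exact_mod_cast hd1'
    linarith
  have he0 : (0 : ℝ) < e := by exact_mod_cast he
  have hg' : (1 : ℝ) ≤ g := by exact_mod_cast hg0
  have hgpos : (0 : ℝ) < g := by linarith
  have hZ1 : 1 ≤ Z := by
    rw [hZ, le_div_iff₀ hD0, one_mul]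
    exact hDN'
  have hZ0 : 0 < Z := by linarith
  have hB0 : 0 < B := by
    rw [hB]
    positivity
  have hu0 : 0 < u := by
    rw [hu]
    positivity
  have hC00 : 0 < C0 := by linarith
  have hBu : 0 < B * u := by positivity
  have hZg : 1 ≤ Z * g := one_le_mul_of_one_le_of_one_le hZ1 hg'
  -- the points
  have hlo : ∀ n : ℕ, N < n → Z / 2 ≤ (n : ℝ) / d := by
    intro n hn
    have hn' : (N : ℝ) ≤ n := by exact_mod_cast hn.le
    rw [hZ, div_div, div_le_div_iff₀ (by positivity) hd0]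
    nlinarith
  have hhi : ∀ n : ℕ, n ≤ M → (n : ℝ) / d ≤ 2 * Z := by
    intro n hn
    have hn' : (n : ℝ) ≤ 2 * N := by exact_mod_cast hn.trans hM
    rw [hZ, ← mul_div_assoc, div_le_div_iff₀ hd0 hD0]
    nlinarith
  have hF : ∀ n : ℕ, N < n → n ≤ M → B * u / C0 ≤ xx t k ((n : ℝ) / d + u) - xx t k ((n : ℝ) / d) ∧
      xx t k ((n : ℝ) / d + u) - xx t k ((n : ℝ) / d) ≤ C0 * (B * u) := by
    intro n h1 h2
    have := geo2 u ((n : ℝ) / d) hu0.le he2 (hlo n h1) (hhi n h2)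
    rw [← hB] at this
    exact this
  by_cases hne : (NN t k N M d d' e α).Nonempty
  swap
  · rw [not_nonempty_iff_eq_empty] at hne
    rw [hne, card_empty, Nat.cast_zero]
    split_ifs <;> positivity
  obtain ⟨n0, hn0⟩ : ∃ n0, n0 = (NN t k N M d d' e α).min' hne := ⟨_, rfl⟩
  have hn0S : n0 ∈ NN t k N M d d' e α := by
    rw [hn0]
    exact min'_mem _ hne
  have hn0le : ∀ n ∈ NN t k N M d d' e α, n0 ≤ n := by
    intro n hn
    rw [hn0]
    exact min'_le _ n hn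
  obtain ⟨⟨a1, a2⟩, a3, a4⟩ := mem_NN.1 hn0S
  obtain ⟨d1, hd1def⟩ : ∃ d1, d1 = d / g := ⟨_, rfl⟩
  have hdd : d = g * d1 := by
    rw [hd1def, Nat.mul_div_cancel' hgd]
  have hd1pos : 0 < d1 := by
    rcases Nat.eq_zero_or_pos d1 with h | h
    · rw [h, mul_zero] at hdd
      omega
    · exact h
  have hd1r : (0 : ℝ) < d1 := by exact_mod_cast hd1pos
  have hddr : (d : ℝ) = g * d1 := by exact_mod_cast hdd
  obtain ⟨U, hU⟩ : ∃ U, U = (M - n0) / d1 + 1 := ⟨_, rfl⟩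
  have hcard : (NN t k N M d d' e α).card ≤ ((range U).filter fun v =>
      nrm ((xx t k (((n0 + d1 * v : ℕ) : ℝ) / d + u) - xx t k (((n0 + d1 * v : ℕ) : ℝ) / d)) - 0) ≤ α).card := by
    have hrep : ∀ n ∈ NN t k N M d d' e α, n0 + d1 * ((n - n0) / d1) = n := by
      intro n hn
      have h1 := hn0le n hn
      obtain ⟨-, h2, -⟩ := mem_NN.1 hn
      have h3 : d1 ∣ n - n0 := by
        rw [hd1def, hg]
        exact cls_dvd hdpos a3 h2 h1
      rw [Nat.mul_div_cancel' h3]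
      omega
    refine card_le_card_of_injOn (fun n => (n - n0) / d1) ?_ ?_
    · intro n hn
      obtain ⟨⟨b1, b2⟩, b3, b4⟩ := mem_NN.1 hn
      have hr := hrep n hn
      simp only [coe_filter, Set.mem_ofPred_eq, mem_range]
      rw [hr, sub_zero]
      constructor
      · rw [hU]
        have : (n - n0) / d1 ≤ (M - n0) / d1 := Nat.div_le_div_right (by omega)
        omega
      · rw [hu]
        exact b4
    · intro n hn m hm hnm
      simp only at hnm
      rw [← hrep n hn, ← hrep m hm, hnm]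
  have hUle : (U : ℝ) ≤ 2 * (Z * g) := by
    have h1 : (((M - n0) / d1 : ℕ) : ℝ) ≤ Z * g := by
      refine Nat.cast_div_le.trans ?_
      have h2 : ((M - n0 : ℕ) : ℝ) ≤ N := by
        have : M - n0 ≤ N := by omega
        exact_mod_cast this
      rw [div_le_iff₀ hd1r]
      have h3 : Z * g * d1 = Z * d := by rw [hddr]; ring
      rw [h3]
      have h4 : Z * D ≤ Z * d := mul_le_mul_of_nonneg_left hdD hZ0.le
      have h5 : Z * D = N := by rw [hZ, div_mul_cancel₀ _ hD0.ne']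
      linarith
    rw [hU]
    push_cast
    linarith
  have hcardU : ((NN t k N M d d' e α).card : ℝ) ≤ U := by
    have h1 := hcard.trans (card_filter_le _ _)
    rw [card_range] at h1
    exact_mod_cast h1
  rcases lt_or_ge (C0 * (B * u)) (1 / 2) with hlt | hge
  · -- few rotations
    have h1 := hF n0 a1 a2
    have h2 : nrm (xx t k ((n0 : ℝ) / d + u) - xx t k ((n0 : ℝ) / d)) =
        xx t k ((n0 : ℝ) / d + u) - xx t k ((n0 : ℝ) / d) :=
      nrm_small ((by positivity : (0 : ℝ) ≤ B * u / C0).trans h1.1) (h1.2.trans_lt hlt)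
    rw [hu] at h2
    rw [h2, ← hu] at a4
    have h3 : B * u / C0 ≤ α := h1.1.trans a4
    rw [div_le_iff₀ hC00] at h3
    have h4 : B * u ≤ 10 * C0 ^ 2 * α := by
      have : α * C0 ≤ α * (10 * C0 ^ 2) := mul_le_mul_of_nonneg_left (by nlinarith) hα0
      linarith
    rw [if_pos h4]
    have h5 : 2 * (Z * g) ≤ 10 * C0 ^ 2 * (Z * g) := by
      apply mul_le_mul_of_nonneg_right _ (by linarith)
      nlinarith
    have h6 : 0 ≤ 10 * C0 ^ 2 * (B * u + α * Z * g) := by positivity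
    have h7 : 10 * C0 ^ 2 * (Z * g + B * u + α * Z * g) =
        10 * C0 ^ 2 * (Z * g) + 10 * C0 ^ 2 * (B * u + α * Z * g) := by ring
    rw [h7]
    linarith
  · -- monotone sequence
    have hm := count_mono U (fun v => xx t k (((n0 + d1 * v : ℕ) : ℝ) / d + u) - xx t k (((n0 + d1 * v : ℕ) : ℝ) / d))
      (-1) (Or.inr rfl) (B / Z * u * (1 / g) / C0) (C0 * (B * u)) α (by positivity) (by positivity) hα0 ?_ ?_ 0
    · have hP : ((NN t k N M d d' e α).card : ℝ) ≤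
          (C0 * (B * u) + 2 * α + 1) * (1 + 2 * α / (B / Z * u * (1 / g) / C0)) :=
        le_trans (by exact_mod_cast hcard) hm
      have hf := cls_real hC0 hB0 hu0 hZ0 hgpos hα0 hα1 rfl hge hP
      refine hf.trans ?_
      apply mul_le_mul_of_nonneg_left _ (by positivity)
      have : 0 ≤ (if B * u ≤ 10 * C0 ^ 2 * α then Z * (g : ℝ) else 0) := by
        split_ifs <;> positivity
      linarith
    · intro v hv
      have hv1 : n0 + d1 * (v + 1) ≤ M := by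
        have h1 : v + 1 ≤ (M - n0) / d1 := by omega
        have h2 : d1 * (v + 1) ≤ M - n0 := by
          have := Nat.mul_le_mul_left d1 h1
          exact this.trans (Nat.mul_div_le _ _)
        omega
      have hv0 : n0 + d1 * v ≤ n0 + d1 * (v + 1) := by
        have : d1 * v ≤ d1 * (v + 1) := Nat.mul_le_mul_left d1 (by omega)
        omega
      have hv0' : ((n0 + d1 * v : ℕ) : ℝ) / d ≤ ((n0 + d1 * (v + 1) : ℕ) : ℝ) / d := by
        apply div_le_div_of_nonneg_right _ hd0.le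
        exact_mod_cast hv0
      have h3 := geo3 u (((n0 + d1 * v : ℕ) : ℝ) / d) (((n0 + d1 * (v + 1) : ℕ) : ℝ) / d) hu0.le he2
        (hlo _ (by omega)) hv0' (hhi _ hv1)
      have h4 : t / Z ^ (k + 1) * u * (((n0 + d1 * (v + 1) : ℕ) : ℝ) / d - ((n0 + d1 * v : ℕ) : ℝ) / d) / C0 =
          B / Z * u * (1 / g) / C0 := by
        rw [hB, hddr, pow_succ]
        push_cast
        field_simp
        ring
      rw [h4] at h3
      linarith
    · intro v hv
      have hv1 : n0 + d1 * v ≤ M := by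
        have h1 : v ≤ (M - n0) / d1 := by omega
        have h2 : d1 * v ≤ M - n0 := by
          have := Nat.mul_le_mul_left d1 h1
          exact this.trans (Nat.mul_div_le _ _)
        omega
      have f1 := hF (n0 + d1 * v) (by omega) hv1
      have f0 := hF (n0 + d1 * 0) (by omega) (by omega)
      have hp : 0 ≤ B * u / C0 := by positivity
      rw [abs_le]
      constructor <;> linarith [f1.1, f1.2, f0.1, f0.2]

open Classical in
theorem cls (k : ℕ) (hk : 2 ≤ k) : ∃ C : ℝ, 1 ≤ C ∧ ∀ (t : ℝ) (N M D d d' e : ℕ) (α : ℝ), 0 < t → 1 ≤ D → D ≤ N → M ≤ 2 * N →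
    D ≤ d → d < 2 * D → D ≤ d' → d' < 2 * D → 1 ≤ e → (e : ℝ) ≤ 2 * ((N : ℝ) / D) * ((d : ℝ) * d') → 0 ≤ α → α ≤ 1 / 2 →
    ((NN t k N M d d' e α).card : ℝ) ≤
      if d.gcd d' ∣ e then
        C * ((if t / ((N : ℝ) / D) ^ k * ((e : ℝ) / (d * d')) ≤ C * α then (N : ℝ) / D * (d.gcd d' : ℕ) else 0) +
          t / ((N : ℝ) / D) ^ k * ((e : ℝ) / (d * d')) + α * ((N : ℝ) / D) * (d.gcd d' : ℕ))
      else 0 := by
  obtain ⟨C0, hC0, h0⟩ := geo k hk
  refine ⟨10 * C0 ^ 2, by nlinarith, ?_⟩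
  intro t N M D d d' e α ht hD hDN hM hd1 hd2 hd1' hd2' he he2 hα0 hα1
  have hD' : (1 : ℝ) ≤ D := by exact_mod_cast hD
  have hD0 : (0 : ℝ) < D := by linarith
  have hDN' : (D : ℝ) ≤ N := by exact_mod_cast hDN
  have hd0 : (0 : ℝ) < d := by
    have : (D : ℝ) ≤ d := by exact_mod_cast hd1
    linarith
  have hd'0 : (0 : ℝ) < d' := by
    have : (D : ℝ) ≤ d' := by exact_mod_cast hd1'
    linarith
  have hZ1 : 1 ≤ (N : ℝ) / D := by
    rw [le_div_iff₀ hD0, one_mul]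
    exact hDN'
  by_cases hge : d.gcd d' ∣ e
  · rw [if_pos hge]
    obtain ⟨-, geo2, geo3⟩ := h0 t ((N : ℝ) / D) ht hZ1
    refine cls_key k C0 t ((N : ℝ) / D) _ _ α N M D d d' e _ rfl rfl rfl rfl ht hC0 geo2 geo3 hD hDN hM hd1 hd2
      hd1' hd2' he ?_ hα0 hα1
    rw [div_le_iff₀ (by positivity)]
    exact he2
  · rw [if_neg hge]
    have hemp : NN t k N M d d' e α = ∅ := by
      rw [eq_empty_iff_forall_notMem]
      intro n hn
      obtain ⟨-, h1, -⟩ := mem_NN.1 hn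
      apply hge
      have h2 : d.gcd d' ∣ e + n * d' := (Nat.gcd_dvd_left d d').trans h1
      exact (Nat.dvd_add_left ((Nat.gcd_dvd_right d d').mul_left n)).1 h2
    rw [hemp, card_empty, Nat.cast_zero]

end Pool.Agent.Lib.DL
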