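import Pool.Agent.Lib.HC.Defs

/-!
# DL: dilated shifts in the derivative estimate for zeta sums, definitions

The sum over `N < n ≤ M` of `n^(-it)` is averaged over the shifts `n ↦ n + d h`, `D ≤ d < 2D`, `0 ≤ h < Y`.  The phase of
`(n + d h)^(-it)` is the polynomial of `h` with the coefficients `cd t (n, d) j = cz t n j * d^j`; up to the sign `(-1)^k` the two top
coordinates are `yy t k z`, `xx t k z` at `z = n/d` (`HC.Defs`).  `Z = N/D`, `B = t/Z^k` (about `1`).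
-/

set_option autoImplicit false

namespace Pool.Agent.Lib.DL

open Finset Pool.Agent.Lib.ZB Pool.Agent.Lib.HB Pool.Agent.Lib.HC

/-- the pairs `(n, d)` -/
def AA (N M D : ℕ) : Finset (ℕ × ℕ) := Ioc N M ×ˢ Ico D (2 * D)

/-- the pairs `(n, d)` coded as natural numbers -/
def EA (N M D : ℕ) : Finset ℕ := (AA N M D).map ⟨fun p => Nat.pair p.1 p.2, fun p q h => by
  have := congrArg Nat.unpair h
  simpa using this⟩

/-- the point `n/d` -/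
noncomputable def zz (p : ℕ × ℕ) : ℝ := (p.1 : ℝ) / p.2

/-- the coordinates -/
noncomputable def cd (t : ℝ) (p : ℕ × ℕ) (j : ℕ) : ℝ := cz t p.1 j * (p.2 : ℝ) ^ j

/-- the range of the parameters -/
def Par (k N D Y : ℕ) (t : ℝ) : Prop :=
  1 ≤ D ∧ 1 ≤ Y ∧ D ≤ N ∧ 1 ≤ t ∧ t * (2 * (D : ℝ)) ^ k ≤ (N : ℝ) ^ k ∧ (N : ℝ) ^ k ≤ t * (4 * (D : ℝ)) ^ k ∧
    t * (2 * (D : ℝ) * Y) ^ (k + 1) ≤ (N : ℝ) ^ (k + 1) ∧ (N : ℝ) ^ (k + 1) ≤ t * (8 * (D : ℝ) * Y) ^ (k + 1) ∧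
    (D : ℝ) ^ 2 ≤ 2 ^ k * (Y : ℝ) ^ (k - 2) ∧ (D : ℝ) ^ 3 * (Y : ℝ) ^ 2 ≤ N

open Classical in
/-- the `n` with a partner: `n' = (e + n d')/d` -/
noncomputable def NN (t : ℝ) (k N M d d' e : ℕ) (α : ℝ) : Finset ℕ :=
  (Ioc N M).filter fun n => d ∣ e + n * d' ∧
    nrm (xx t k ((n : ℝ) / d + (e : ℝ) / (d * d')) - xx t k ((n : ℝ) / d)) ≤ α

/-- the new estimate of degree `k` -/
def HDB (k : ℕ) : Prop :=
  ∀ ε : ℝ, 0 < ε → ∃ C : ℝ, 0 ≤ C ∧ ∀ (N M : ℕ), 1 ≤ N → N ≤ M → M ≤ 2 * N → ∀ t : ℝ, t ≤ (N : ℝ) ^ k →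
    (N : ℝ) ^ (2 * (k + 1)) ≤ t ^ 3 →
    ‖∑ n ∈ Finset.Ioc N M, (n : ℂ) ^ (-((t : ℂ) * Complex.I))‖ ≤ C * (N : ℝ) ^ (1 + ε) *
      ((N : ℝ) ^ 2 * t ^ (-(1 / (k : ℝ)))) ^ (-(1 / ((k : ℝ) * (k + 1))))

theorem sum_EA (N M D : ℕ) {β : Type*} [AddCommMonoid β] (F : ℕ → β) :
    ∑ m ∈ EA N M D, F m = ∑ p ∈ AA N M D, F (Nat.pair p.1 p.2) := by
  unfold EA
  rw [sum_map]
  rfl

theorem yy_cd (t : ℝ) (k : ℕ) (p : ℕ × ℕ) (h2 : 1 ≤ p.2) : cd t p k = (-1) ^ k * yy t k (zz p) := by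
  have hd : (p.2 : ℝ) ≠ 0 := by
    have : (0 : ℝ) < p.2 := by exact_mod_cast h2
    exact this.ne'
  unfold cd zz
  rw [yy_cz]
  unfold yy
  rw [div_pow]
  by_cases hn : (p.1 : ℝ) ^ k = 0
  · rw [hn]
    simp
  by_cases hk : (k : ℝ) = 0
  · rw [hk]
    simp
  have hpi := Real.pi_ne_zero
  field_simp

theorem xx_cd (t : ℝ) (k : ℕ) (p : ℕ × ℕ) (hk : 2 ≤ k) (h2 : 1 ≤ p.2) : cd t p (k - 1) = (-1) ^ k * xx t k (zz p) := by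
  have hd : (p.2 : ℝ) ≠ 0 := by
    have : (0 : ℝ) < p.2 := by exact_mod_cast h2
    exact this.ne'
  unfold cd zz
  rw [xx_cz t k p.1 hk]
  unfold xx
  rw [div_pow]
  by_cases hn : (p.1 : ℝ) ^ (k - 1) = 0
  · rw [hn]
    simp
  have hk1 : ((k : ℝ) - 1) ≠ 0 := by
    have : (2 : ℝ) ≤ k := by exact_mod_cast hk
    linarith
  have hpi := Real.pi_ne_zero
  field_simp

end Pool.Agent.Lib.DL
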