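import Pool.Agent.Lib.DL.Defs

/-!
# DL / Diag (120 lines): the pairs with `n/d = n'/d'`

PROOF.  For fixed `d, d' ∈ [D, 2D)`, `g = gcd d d'`: `n d' = n' d` gives `d/g ∣ n` and `n'` is determined by `n`: at most `2N/(d/g) ≤ 2 N g/D` values of `n ∈ (N, M]`
(multiples of `d/g` in `[1, 2N]`).  `∑_{d,d'} gcd d d' ≤ ∑_{g < 2D} g (number of multiples of g in [D, 2D))^2`, that number is `≤ D/g + 1 ≤ 3D/g` for `g < 2D`:
`≤ 9 D^2 ∑_{g < 2D} 1/g ≤ 9 D^2 (1 + log (2D))` (harmonic sum, e.g. `harmonic_le_one_add_log`).  Total `≤ 18 N D (1 + log (2D)) ≤ 18 N D (1 + log 2 + log N)`.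
-/

set_option autoImplicit false

namespace Pool.Agent.Lib.DL

open Finset Pool.Agent.Lib.ZB Pool.Agent.Lib.HB Pool.Agent.Lib.HC

/-- the multiples of `g` below `2D` -/
private theorem diag_mult (D g : ℕ) (_hD : 1 ≤ D) (hg : 1 ≤ g) :
    (((Ico D (2 * D)).filter fun d => g ∣ d).card : ℝ) ≤ 2 * D / g := by
  have h1 : ((Ico D (2 * D)).filter fun d => g ∣ d) ⊆ (Ioc 0 (2 * D)).filter fun d => g ∣ d := by
    intro d hd
    rw [mem_filter, mem_Ico] at hd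
    rw [mem_filter, mem_Ioc]
    exact ⟨⟨by omega, by omega⟩, hd.2⟩
  have h2 := card_le_card h1
  rw [Nat.Ioc_filter_dvd_card_eq_div] at h2
  have hg0 : (0 : ℝ) < g := by exact_mod_cast hg
  calc (((Ico D (2 * D)).filter fun d => g ∣ d).card : ℝ) ≤ ((2 * D / g : ℕ) : ℝ) := by exact_mod_cast h2
    _ ≤ ((2 * D : ℕ) : ℝ) / g := Nat.cast_div_le
    _ = 2 * D / g := by push_cast; ring

/-- the sum of the greatest common divisors -/
private theorem diag_gcd (D : ℕ) (hD : 1 ≤ D) :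
    ∑ q ∈ Ico D (2 * D) ×ˢ Ico D (2 * D), (Nat.gcd q.1 q.2 : ℝ) ≤ 4 * (D : ℝ) ^ 2 * (1 + Real.log (2 * D)) := by
  have h1 : ∀ q ∈ Ico D (2 * D) ×ˢ Ico D (2 * D), (Nat.gcd q.1 q.2 : ℝ) ≤
      ∑ g ∈ Icc 1 (2 * D), (if g ∣ q.1 then 1 else 0) * (if g ∣ q.2 then 1 else 0) * (g : ℝ) := by
    intro q hq
    rw [mem_product, mem_Ico, mem_Ico] at hq
    have hpos : 0 < Nat.gcd q.1 q.2 := Nat.gcd_pos_of_pos_left _ (by omega)
    have hle : Nat.gcd q.1 q.2 ≤ q.1 := Nat.gcd_le_left _ (by omega)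
    have hm : Nat.gcd q.1 q.2 ∈ Icc 1 (2 * D) := mem_Icc.2 ⟨hpos, by omega⟩
    have h2 := single_le_sum (f := fun g : ℕ => (if g ∣ q.1 then (1 : ℝ) else 0) * (if g ∣ q.2 then 1 else 0) * (g : ℝ))
      (fun g _ => by
        refine mul_nonneg (mul_nonneg ?_ ?_) (Nat.cast_nonneg _) <;> split_ifs <;> norm_num) hm
    refine le_trans (le_of_eq ?_) h2
    rw [if_pos (Nat.gcd_dvd_left _ _), if_pos (Nat.gcd_dvd_right _ _)]
    ring
  refine (sum_le_sum h1).trans ?_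
  rw [sum_comm]
  have h3 : ∀ g ∈ Icc 1 (2 * D), ∑ q ∈ Ico D (2 * D) ×ˢ Ico D (2 * D),
      (if g ∣ q.1 then (1 : ℝ) else 0) * (if g ∣ q.2 then 1 else 0) * (g : ℝ) ≤ 4 * (D : ℝ) ^ 2 * (g : ℝ)⁻¹ := by
    intro g hg
    rw [mem_Icc] at hg
    have hg0 : (0 : ℝ) < g := by exact_mod_cast hg.1
    have e0 : ∑ q ∈ Ico D (2 * D) ×ˢ Ico D (2 * D), (if g ∣ q.1 then (1 : ℝ) else 0) * (if g ∣ q.2 then 1 else 0) =
        (∑ d ∈ Ico D (2 * D), (if g ∣ d then (1 : ℝ) else 0)) * ∑ d ∈ Ico D (2 * D), (if g ∣ d then (1 : ℝ) else 0) := by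
      rw [sum_mul_sum, sum_product]
    rw [← sum_mul, e0]
    have e : ∑ d ∈ Ico D (2 * D), (if g ∣ d then (1 : ℝ) else 0) = (((Ico D (2 * D)).filter fun d => g ∣ d).card : ℝ) := by
      rw [← sum_filter, sum_const, nsmul_eq_mul, mul_one]
    rw [e]
    have h4 := diag_mult D g hD hg.1
    calc (((Ico D (2 * D)).filter fun d => g ∣ d).card : ℝ) * (((Ico D (2 * D)).filter fun d => g ∣ d).card : ℝ) * g
        ≤ (2 * D / g) * (2 * D / g) * g := by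
          refine mul_le_mul_of_nonneg_right ?_ hg0.le
          exact mul_le_mul h4 h4 (Nat.cast_nonneg _) (by positivity)
      _ = 4 * (D : ℝ) ^ 2 * (g : ℝ)⁻¹ := by
          field_simp
          ring
  refine (sum_le_sum h3).trans ?_
  rw [← mul_sum]
  refine mul_le_mul_of_nonneg_left ?_ (by positivity)
  have h5 := harmonic_le_one_add_log (2 * D)
  rw [harmonic_eq_sum_Icc] at h5
  push_cast at h5
  exact h5

theorem diag_card : ∃ C : ℝ, 1 ≤ C ∧ ∀ (N M D : ℕ), 1 ≤ D → D ≤ N → M ≤ 2 * N →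
    (((AA N M D ×ˢ AA N M D).filter fun p : (ℕ × ℕ) × (ℕ × ℕ) => p.1.1 * p.2.2 = p.2.1 * p.1.2).card : ℝ) ≤
      C * (1 + Real.log N) * ((N : ℝ) * D) := by
  refine ⟨16, by norm_num, fun N M D hD hDN hM => ?_⟩
  classical
  have hDr : (1 : ℝ) ≤ D := by exact_mod_cast hD
  have hD0 : (0 : ℝ) < D := by linarith
  have hNr : (1 : ℝ) ≤ N := by exact_mod_cast hD.trans hDN
  -- injection
  have hinj : ((AA N M D ×ˢ AA N M D).filter fun p : (ℕ × ℕ) × (ℕ × ℕ) => p.1.1 * p.2.2 = p.2.1 * p.1.2).card ≤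
      ((Ico D (2 * D) ×ˢ Ico D (2 * D)).sigma fun q => (Ioc 0 (2 * N)).filter fun n => (q.1 / Nat.gcd q.1 q.2) ∣ n).card := by
    refine card_le_card_of_injOn (fun p : (ℕ × ℕ) × (ℕ × ℕ) => (⟨(p.1.2, p.2.2), p.1.1⟩ : Σ _ : ℕ × ℕ, ℕ)) ?_ ?_
    · intro p hp
      have hp' := mem_filter.1 (mem_coe.1 hp)
      obtain ⟨hp1, hp2⟩ := hp'
      unfold AA at hp1
      rw [mem_product, mem_product, mem_product, mem_Ioc, mem_Ioc, mem_Ico, mem_Ico] at hp1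
      obtain ⟨⟨h1, h2⟩, h3, h4⟩ := hp1
      refine mem_coe.2 (mem_sigma.2 ⟨mem_product.2 ⟨mem_Ico.2 h2, mem_Ico.2 h4⟩, ?_⟩)
      show p.1.1 ∈ (Ioc 0 (2 * N)).filter fun n => (p.1.2 / Nat.gcd p.1.2 p.2.2) ∣ n
      refine mem_filter.2 ⟨mem_Ioc.2 ⟨by omega, by omega⟩, ?_⟩
      have hg : 0 < Nat.gcd p.1.2 p.2.2 := Nat.gcd_pos_of_pos_left _ (by omega)
      have hco : Nat.Coprime (p.1.2 / Nat.gcd p.1.2 p.2.2) (p.2.2 / Nat.gcd p.1.2 p.2.2) := Nat.coprime_div_gcd_div_gcd hg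
      refine hco.dvd_of_dvd_mul_right ?_
      have e1 : p.1.1 * (p.2.2 / Nat.gcd p.1.2 p.2.2) = p.2.1 * (p.1.2 / Nat.gcd p.1.2 p.2.2) := by
        rw [← Nat.mul_div_assoc _ (Nat.gcd_dvd_right _ _), ← Nat.mul_div_assoc _ (Nat.gcd_dvd_left _ _), hp2]
      rw [e1]
      exact dvd_mul_left _ _
    · intro p hp p' hp' hpp
      have hp1 := mem_filter.1 (mem_coe.1 hp)
      have hp1' := mem_filter.1 (mem_coe.1 hp')
      obtain ⟨ha, hb⟩ := hp1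
      obtain ⟨-, hb'⟩ := hp1'
      unfold AA at ha
      rw [mem_product, mem_product, mem_product, mem_Ioc, mem_Ioc, mem_Ico, mem_Ico] at ha
      simp only [Sigma.mk.injEq, Prod.mk.injEq, heq_eq_eq] at hpp
      obtain ⟨⟨e1, e2⟩, e3⟩ := hpp
      have e4 : p.2.1 = p'.2.1 := by
        rw [← e1, ← e2, ← e3] at hb'
        have h5 : p.2.1 * p.1.2 = p'.2.1 * p.1.2 := by rw [← hb, ← hb']
        exact Nat.eq_of_mul_eq_mul_right (by omega) h5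
      exact Prod.ext (Prod.ext e3 e1) (Prod.ext e4 e2)
  rw [card_sigma] at hinj
  have h1 : ∀ q ∈ Ico D (2 * D) ×ˢ Ico D (2 * D),
      (((Ioc 0 (2 * N)).filter fun n => (q.1 / Nat.gcd q.1 q.2) ∣ n).card : ℝ) ≤ 2 * N / D * (Nat.gcd q.1 q.2 : ℝ) := by
    intro q hq
    rw [mem_product, mem_Ico, mem_Ico] at hq
    have hg : 0 < Nat.gcd q.1 q.2 := Nat.gcd_pos_of_pos_left _ (by omega)
    have hgr : (0 : ℝ) < Nat.gcd q.1 q.2 := by exact_mod_cast hg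
    have hq1 : (D : ℝ) ≤ q.1 := by exact_mod_cast hq.1.1
    have hq0 : (0 : ℝ) < q.1 := by linarith
    rw [Nat.Ioc_filter_dvd_card_eq_div]
    have e1 : ((q.1 / Nat.gcd q.1 q.2 : ℕ) : ℝ) = (q.1 : ℝ) / Nat.gcd q.1 q.2 :=
      Nat.cast_div (Nat.gcd_dvd_left _ _) hgr.ne'
    calc ((2 * N / (q.1 / Nat.gcd q.1 q.2) : ℕ) : ℝ) ≤ ((2 * N : ℕ) : ℝ) / ((q.1 / Nat.gcd q.1 q.2 : ℕ) : ℝ) := Nat.cast_div_le
      _ = 2 * N / q.1 * (Nat.gcd q.1 q.2 : ℝ) := by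
          rw [e1]
          push_cast
          field_simp
      _ ≤ 2 * N / D * (Nat.gcd q.1 q.2 : ℝ) := by gcongr
  have h2 := diag_gcd D hD
  have h3 : (((AA N M D ×ˢ AA N M D).filter fun p : (ℕ × ℕ) × (ℕ × ℕ) => p.1.1 * p.2.2 = p.2.1 * p.1.2).card : ℝ) ≤
      ∑ q ∈ Ico D (2 * D) ×ˢ Ico D (2 * D), (((Ioc 0 (2 * N)).filter fun n => (q.1 / Nat.gcd q.1 q.2) ∣ n).card : ℝ) := by
    exact_mod_cast hinj
  have hlog : Real.log (2 * D) ≤ 1 + 2 * Real.log N := by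
    have h4 : Real.log (2 * D) ≤ Real.log (2 * N) := by
      have : (D : ℝ) ≤ N := by exact_mod_cast hDN
      exact Real.log_le_log (by positivity) (by linarith)
    rw [Real.log_mul (x := 2) (y := (N : ℝ)) (by norm_num) (by linarith)] at h4
    have h5 : Real.log 2 ≤ 1 := by
      have := Real.log_two_lt_d9
      linarith
    have h6 : 0 ≤ Real.log N := Real.log_nonneg hNr
    linarith
  calc (((AA N M D ×ˢ AA N M D).filter fun p : (ℕ × ℕ) × (ℕ × ℕ) => p.1.1 * p.2.2 = p.2.1 * p.1.2).card : ℝ)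
      ≤ ∑ q ∈ Ico D (2 * D) ×ˢ Ico D (2 * D), 2 * N / D * (Nat.gcd q.1 q.2 : ℝ) := h3.trans (sum_le_sum h1)
    _ = 2 * N / D * ∑ q ∈ Ico D (2 * D) ×ˢ Ico D (2 * D), (Nat.gcd q.1 q.2 : ℝ) := by rw [mul_sum]
    _ ≤ 2 * N / D * (4 * (D : ℝ) ^ 2 * (1 + Real.log (2 * D))) := mul_le_mul_of_nonneg_left h2 (by positivity)
    _ = 8 * (1 + Real.log (2 * D)) * ((N : ℝ) * D) := by
        field_simp
        ring
    _ ≤ 16 * (1 + Real.log N) * ((N : ℝ) * D) := by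
        refine mul_le_mul_of_nonneg_right ?_ (by positivity)
        linarith

end Pool.Agent.Lib.DL
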