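import Pool.Agent.Lib.DL.MD
import Pool.Agent.Lib.HC.FJ

/-!
# DL / FD (120 lines): the first moment

PROOF.  Adapt `HC/FJ.lean` (`firstJ`; copy its private lemmas `FJ_pm`, `FJ_log`): the set `EA N M D` has `(M - N) D ≤ N D` elements; power mean:
`(∑ x)^s ≤ (N D)^(s-1) ∑ x^s`, so with `K = k (k+1) = 2s`: `(∑ x)^K ≤ (N D)^(K-2) (∑ x^s)^2 ≤ C (1 + log N) Y^(K+ε') (N D)^(K-1)`.  `K`-th root, `Y ≤ N` (from `Par`: `2 D Y ≤ N` since `t ≥ 1`),
`(1 + log N) ≤ C N^ε'`.  At the end replace the sum over `EA` by the sum over `AA` (`sum_EA`, `Nat.unpair_pair`).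
-/

set_option autoImplicit false

namespace Pool.Agent.Lib.DL

open Finset Pool.Agent.Lib.ZB Pool.Agent.Lib.HB Pool.Agent.Lib.HC

private theorem FD_pm (E : Finset ℕ) (x : ℕ → ℝ) (hx : ∀ n, 0 ≤ x n) {Q : ℝ} (hQ : (E.card : ℝ) ≤ Q) (s : ℕ) (hs : 1 ≤ s) :
    (∑ n ∈ E, x n) ^ s ≤ Q ^ (s - 1) * ∑ n ∈ E, x n ^ s := by
  obtain ⟨r, rfl⟩ : ∃ r, s = r + 1 := ⟨s - 1, by omega⟩
  have hpos : 0 ≤ ∑ n ∈ E, x n ^ (r + 1) := Finset.sum_nonneg fun n _ => pow_nonneg (hx n) _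
  rw [Nat.add_sub_cancel]
  rcases E.eq_empty_or_nonempty with h | h
  · rw [h]
    simp
  · have h1 := pow_sum_div_card_le_sum_pow (s := E) (f := x) (fun i _ => hx i) r
    have hc : (0 : ℝ) < (E.card : ℝ) := by exact_mod_cast h.card_pos
    rw [div_le_iff₀ (by positivity)] at h1
    calc (∑ n ∈ E, x n) ^ (r + 1) ≤ (∑ n ∈ E, x n ^ (r + 1)) * (E.card : ℝ) ^ r := h1
      _ ≤ (∑ n ∈ E, x n ^ (r + 1)) * Q ^ r :=
        mul_le_mul_of_nonneg_left (pow_le_pow_left₀ hc.le hQ r) hpos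
      _ = _ := mul_comm _ _

private theorem FD_log {N : ℕ} (hN : 1 ≤ N) {δ : ℝ} (hδ : 0 < δ) :
    1 + Real.log N ≤ (1 + 1 / δ) * (N : ℝ) ^ δ := by
  have h1 := Real.log_le_rpow_div (x := (N : ℝ)) (Nat.cast_nonneg N) hδ
  have h2 : (1 : ℝ) ≤ (N : ℝ) ^ δ := Real.one_le_rpow (by exact_mod_cast hN) hδ.le
  have h3 : (1 + 1 / δ) * (N : ℝ) ^ δ = (N : ℝ) ^ δ + (N : ℝ) ^ δ / δ := by ring
  rw [h3]
  linarith

private theorem FD_card {N M D : ℕ} (hM : M ≤ 2 * N) : ((EA N M D).card : ℝ) ≤ (N : ℝ) * D := by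
  have h1 : (EA N M D).card = (M - N) * D := by
    unfold EA AA
    rw [card_map, card_product, Nat.card_Ioc, Nat.card_Ico]
    congr 1
    omega
  rw [h1]
  push_cast
  refine mul_le_mul_of_nonneg_right ?_ (Nat.cast_nonneg D)
  exact_mod_cast (by omega : M - N ≤ N)

theorem firstD (hV : VMV) (k : ℕ) (hk : 3 ≤ k) {ε : ℝ} (hε : 0 < ε) : ∃ C : ℝ, 0 ≤ C ∧
    ∀ (N M D Y : ℕ) (t : ℝ), Par k N D Y t → M ≤ 2 * N → ∀ w : ℕ → ℂ, (∀ h, ‖w h‖ ≤ 1) →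
      ∑ p ∈ AA N M D, ‖∑ h ∈ range Y, w h * e (ph k (cd t p) h)‖ ≤
        C * (Y : ℝ) * (N : ℝ) ^ ε * ((N : ℝ) * D) * ((N : ℝ) * D) ^ (-(1 / ((k : ℝ) * (k + 1)))) := by
  obtain ⟨C, hC, hmom⟩ := momentD hV k hk (ε := ε / 2) (by positivity)
  set A : ℝ := C * (1 + 1 / (ε / 2)) with hA
  have hA0 : 0 ≤ A := by positivity
  set c : ℝ := 1 / ((k : ℝ) * (k + 1)) with hc
  have hk0 : (0 : ℝ) < k := by exact_mod_cast (by omega : 0 < k)
  have hc0 : 0 < c := by positivity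
  have hk2 : (3 : ℝ) ≤ k := by exact_mod_cast hk
  have hc1 : c ≤ 1 := by
    rw [hc, div_le_one (by positivity)]
    nlinarith
  refine ⟨A ^ c, by positivity, ?_⟩
  intro N M D Y t hPar hM w hw
  have hm := hmom N M D Y t hPar hM w hw
  obtain ⟨hD, hY, hDN, ht, -, -, hDY, -, -, -⟩ := hPar
  have hN : 1 ≤ N := hD.trans hDN
  have hN0 : (0 : ℝ) < N := by exact_mod_cast hN
  have hN1 : (1 : ℝ) ≤ N := by exact_mod_cast hN
  have hY0 : (0 : ℝ) < Y := by exact_mod_cast hY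
  have hD1 : (1 : ℝ) ≤ D := by exact_mod_cast hD
  have hD0 : (0 : ℝ) < D := by linarith
  have hYN : (Y : ℝ) ≤ N := by
    have h1 : (2 * (D : ℝ) * Y) ^ (k + 1) ≤ (N : ℝ) ^ (k + 1) := by
      refine le_trans ?_ hDY
      exact le_mul_of_one_le_left (by positivity) ht
    have h2 : 2 * (D : ℝ) * Y ≤ N := le_of_pow_le_pow_left₀ (by omega) hN0.le h1
    nlinarith
  set Q : ℝ := (N : ℝ) * D with hQ
  have hQ0 : 0 < Q := by positivity
  set K : ℕ := k * (k + 1) with hK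
  obtain ⟨s, hs⟩ : ∃ s, K = s + s := by
    have := Nat.even_mul_succ_self k
    exact this
  have hs' : K / 2 = s := by omega
  rw [hs'] at hm
  have hK6 : 6 ≤ K := by
    rw [hK]
    nlinarith
  have hs1 : 1 ≤ s := by omega
  set x : ℕ → ℝ := fun m => ‖∑ h ∈ range Y, w h * e (ph k (cd t (Nat.unpair m)) h)‖ with hx
  have hx0 : ∀ n, 0 ≤ x n := fun n => norm_nonneg _
  have hSe : ∑ p ∈ AA N M D, ‖∑ h ∈ range Y, w h * e (ph k (cd t p) h)‖ = ∑ m ∈ EA N M D, x m := by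
    rw [sum_EA]
    refine sum_congr rfl fun p _ => ?_
    rw [hx]
    simp only [Nat.unpair_pair]
  rw [hSe]
  set S : ℝ := ∑ m ∈ EA N M D, x m with hS
  have hS0 : 0 ≤ S := Finset.sum_nonneg fun n _ => hx0 n
  change (∑ n ∈ EA N M D, x n ^ s) ^ 2 ≤ _ at hm
  have hpm := FD_pm (EA N M D) x hx0 (FD_card hM) s hs1
  have hKr : ((K : ℕ) : ℝ) = (k : ℝ) * (k + 1) := by
    rw [hK]
    push_cast
    ring
  have hcK : c = ((K : ℕ) : ℝ)⁻¹ := by rw [hKr, hc, one_div]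
  -- the power inequality
  have hpow : S ^ K ≤ A * (N : ℝ) ^ ε * ((Y : ℝ) * Q) ^ K * Q⁻¹ := by
    have e1 : S ^ K = (S ^ s) ^ 2 := by rw [← pow_mul, hs]; congr 1; ring
    have e2 : (S ^ s) ^ 2 ≤ (Q ^ (s - 1) * ∑ n ∈ EA N M D, x n ^ s) ^ 2 :=
      pow_le_pow_left₀ (by positivity) hpm 2
    have e3 : (Q ^ (s - 1) * ∑ n ∈ EA N M D, x n ^ s) ^ 2 ≤
        (Q ^ (s - 1)) ^ 2 * (C * (1 + Real.log N) * (Y : ℝ) ^ (((K : ℕ) : ℝ) + ε / 2) * Q) := by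
      rw [mul_pow]
      exact mul_le_mul_of_nonneg_left hm (by positivity)
    have e5 : (Q ^ (s - 1)) ^ 2 * Q = Q ^ K * Q⁻¹ := by
      have e51 : Q ^ K = (Q ^ (s - 1)) ^ 2 * Q ^ 2 := by
        rw [← pow_mul, ← pow_add]
        congr 1
        omega
      rw [e51]
      field_simp
    have e6 : (Y : ℝ) ^ (((K : ℕ) : ℝ) + ε / 2) ≤ (Y : ℝ) ^ K * (N : ℝ) ^ (ε / 2) := by
      rw [Real.rpow_add hY0, Real.rpow_natCast]
      exact mul_le_mul_of_nonneg_left (Real.rpow_le_rpow hY0.le hYN (by positivity)) (by positivity)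
    have e7 := FD_log hN (δ := ε / 2) (by positivity)
    have e8 : (N : ℝ) ^ ε = (N : ℝ) ^ (ε / 2) * (N : ℝ) ^ (ε / 2) := by
      rw [← Real.rpow_add hN0]
      congr 1
      ring
    have hlog : 0 ≤ Real.log N := Real.log_natCast_nonneg N
    have e9 : C * (1 + Real.log N) * (Y : ℝ) ^ (((K : ℕ) : ℝ) + ε / 2) ≤
        A * (N : ℝ) ^ ε * (Y : ℝ) ^ K := by
      calc C * (1 + Real.log N) * (Y : ℝ) ^ (((K : ℕ) : ℝ) + ε / 2)
          ≤ C * ((1 + 1 / (ε / 2)) * (N : ℝ) ^ (ε / 2)) * ((Y : ℝ) ^ K * (N : ℝ) ^ (ε / 2)) := by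
            apply mul_le_mul (mul_le_mul_of_nonneg_left e7 hC) e6 (by positivity) (by positivity)
        _ = A * (N : ℝ) ^ ε * (Y : ℝ) ^ K := by
            rw [e8, hA]
            ring
    calc S ^ K = (S ^ s) ^ 2 := e1
      _ ≤ _ := e2.trans e3
      _ = (C * (1 + Real.log N) * (Y : ℝ) ^ (((K : ℕ) : ℝ) + ε / 2)) * (Q ^ K * Q⁻¹) := by
          rw [← e5]
          ring
      _ ≤ (A * (N : ℝ) ^ ε * (Y : ℝ) ^ K) * (Q ^ K * Q⁻¹) :=
          mul_le_mul_of_nonneg_right e9 (by positivity)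
      _ = A * (N : ℝ) ^ ε * ((Y : ℝ) * Q) ^ K * Q⁻¹ := by
          rw [mul_pow]
          ring
  -- roots
  have hroot : S ≤ A ^ c * (N : ℝ) ^ (ε * c) * ((Y : ℝ) * Q) * Q ^ (-c) := by
    have r1 : (S ^ K) ^ c = S := by
      rw [hcK]
      exact Real.pow_rpow_inv_natCast hS0 (by omega)
    have r2 : (((Y : ℝ) * Q) ^ K) ^ c = (Y : ℝ) * Q := by
      rw [hcK]
      exact Real.pow_rpow_inv_natCast (by positivity) (by omega)
    have r3 := Real.rpow_le_rpow (by positivity) hpow hc0.le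
    rw [r1, Real.mul_rpow (by positivity) (by positivity), Real.mul_rpow (by positivity) (by positivity), r2,
      Real.mul_rpow hA0 (by positivity), ← Real.rpow_mul hN0.le, Real.inv_rpow hQ0.le, ← Real.rpow_neg hQ0.le] at r3
    exact r3
  have hNe : (N : ℝ) ^ (ε * c) ≤ (N : ℝ) ^ ε :=
    Real.rpow_le_rpow_of_exponent_le hN1 (by nlinarith)
  calc S ≤ A ^ c * (N : ℝ) ^ (ε * c) * ((Y : ℝ) * Q) * Q ^ (-c) := hroot
    _ ≤ A ^ c * (N : ℝ) ^ ε * ((Y : ℝ) * Q) * Q ^ (-c) := by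
      apply mul_le_mul_of_nonneg_right _ (by positivity)
      apply mul_le_mul_of_nonneg_right _ (by positivity)
      exact mul_le_mul_of_nonneg_left hNe (by positivity)
    _ = A ^ c * (Y : ℝ) * (N : ℝ) ^ ε * Q * Q ^ (-c) := by
      ring

end Pool.Agent.Lib.DL
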