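import Pool.Agent.Lib.DL.Defs
import Pool.Agent.Lib.HC.Fn
import Pool.Agent.Lib.HC.Crit

/-!
# DL / Geo (90 lines): the size of the differences

PROOF.  (1) is `HC.fn_bd` (first part, `N := Z`).  (2), (3): `xx' = k yy` (`HC.xx_deriv`).  (2): mean value theorem on `[z, z + u]`, `w ∈ [Z/2, 4Z]`:
`t/(2 π k (4Z)^k) ≤ yy w ≤ t 2^k/(2 π k Z^k)`.  (3): the function `w ↦ xx (w + u) - xx w` has the derivative `-k (yy w - yy (w + u)) = -k ff u w`, and by (1)
`yy w - yy (w+u) ≥ t/Z^(k+1) u/C`; mean value theorem on `[z, z2]`.  `u = 0` or `z = z2` are trivial.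
-/

set_option autoImplicit false

namespace Pool.Agent.Lib.DL

open Finset Pool.Agent.Lib.ZB Pool.Agent.Lib.HB Pool.Agent.Lib.HC

/-- mean value theorem -/
private theorem geo_mvt {f f' : ℝ → ℝ} {a b : ℝ} (hab : a ≤ b) (h : ∀ x, a ≤ x → x ≤ b → HasDerivAt f (f' x) x) :
    ∃ c, a ≤ c ∧ c ≤ b ∧ f b - f a = f' c * (b - a) := by
  rcases hab.eq_or_lt with h0 | h0
  · refine ⟨a, le_rfl, hab, ?_⟩
    rw [← h0]
    ring
  · obtain ⟨c, hc, h1⟩ := exists_hasDerivAt_eq_slope f f' h0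
      (fun x hx => (h x hx.1 hx.2).continuousAt.continuousWithinAt) (fun x hx => h x hx.1.le hx.2.le)
    refine ⟨c, hc.1.le, hc.2.le, ?_⟩
    rw [h1, div_mul_cancel₀ _ (sub_pos.2 h0).ne']

theorem geo (k : ℕ) (hk : 2 ≤ k) : ∃ C : ℝ, 1 ≤ C ∧ ∀ (t Z : ℝ), 0 < t → 1 ≤ Z →
    (∀ z z' : ℝ, Z / 2 ≤ z → z ≤ z' → z' ≤ 4 * Z → t / Z ^ (k + 1) * (z' - z) / C ≤ yy t k z - yy t k z') ∧
    (∀ u z : ℝ, 0 ≤ u → u ≤ 2 * Z → Z / 2 ≤ z → z ≤ 2 * Z → t / Z ^ k * u / C ≤ xx t k (z + u) - xx t k z ∧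
      xx t k (z + u) - xx t k z ≤ C * (t / Z ^ k * u)) ∧
    (∀ u z z2 : ℝ, 0 ≤ u → u ≤ 2 * Z → Z / 2 ≤ z → z ≤ z2 → z2 ≤ 2 * Z →
      t / Z ^ (k + 1) * u * (z2 - z) / C ≤ (xx t k (z + u) - xx t k z) - (xx t k (z2 + u) - xx t k z2)) := by
  obtain ⟨C0, hC0, hfn⟩ := fn_bd k hk
  have hk0 : (0 : ℝ) < k := by exact_mod_cast (by omega : 0 < k)
  have hk1 : (1 : ℝ) ≤ k := by exact_mod_cast (by omega : 1 ≤ k)
  have hpi := Real.pi_pos
  have hpi3 := Real.pi_gt_three
  obtain ⟨C, hC⟩ : ∃ C : ℝ, C = C0 + 2 * Real.pi * 4 ^ k := ⟨_, rfl⟩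
  have h4k : (0 : ℝ) < 4 ^ k := by positivity
  have h24 : (2 : ℝ) ^ k ≤ 4 ^ k := pow_le_pow_left₀ (by norm_num) (by norm_num) k
  have hCC0 : C0 ≤ C := by
    rw [hC]
    have : 0 ≤ 2 * Real.pi * 4 ^ k := by positivity
    linarith
  have hC4 : 2 * Real.pi * 4 ^ k ≤ C := by
    rw [hC]
    linarith
  have hC2 : (2 : ℝ) ^ k ≤ C := by
    refine le_trans ?_ hC4
    nlinarith
  have hC1 : 1 ≤ C := hC0.trans hCC0
  have hCpos : 0 < C := by linarith
  refine ⟨C, hC1, fun t Z ht hZ => ?_⟩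
  have hZ0 : 0 < Z := by linarith
  have hfirst : ∀ z z' : ℝ, Z / 2 ≤ z → z ≤ z' → z' ≤ 4 * Z → t / Z ^ (k + 1) * (z' - z) / C0 ≤ yy t k z - yy t k z' :=
    fun z z' h1 h2 h3 => ((hfn t Z ht hZ).1 z z' h1 h2 (by linarith)).1
  have hmono : ∀ x : ℝ, 0 ≤ x → x / C ≤ x / C0 := fun x hx =>
    div_le_div_of_nonneg_left hx (by linarith) hCC0
  refine ⟨fun z z' h1 h2 h3 => (hmono _ ?_).trans (hfirst z z' h1 h2 h3), fun u z hu hu2 hz hz2 => ?_,
    fun u z z2 hu hu2 hz hzz hz2 => ?_⟩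
  · have : 0 ≤ z' - z := by linarith
    positivity
  · obtain ⟨w, hw1, hw2, hw⟩ := geo_mvt (f := xx t k) (f' := fun w => k * yy t k w) (a := z) (b := z + u) (by linarith)
      (fun x hx _ => xx_deriv t k hk (by linarith))
    have hw0 : 0 < w := by linarith
    have e1 : (k : ℝ) * yy t k w = t / (2 * Real.pi * w ^ k) := by
      unfold yy
      field_simp
    simp only [add_sub_cancel_left, e1] at hw
    rw [hw]
    have hwk : 0 < w ^ k := by positivity
    have hZk : 0 < Z ^ k := by positivity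
    constructor
    · have h1 : w ^ k ≤ 4 ^ k * Z ^ k := by
        rw [← mul_pow]
        exact pow_le_pow_left₀ hw0.le (by linarith) k
      have h2 : 2 * Real.pi * w ^ k ≤ Z ^ k * C := by
        calc 2 * Real.pi * w ^ k ≤ 2 * Real.pi * (4 ^ k * Z ^ k) := mul_le_mul_of_nonneg_left h1 (by positivity)
          _ = Z ^ k * (2 * Real.pi * 4 ^ k) := by ring
          _ ≤ Z ^ k * C := mul_le_mul_of_nonneg_left hC4 hZk.le
      have h3 : t / (Z ^ k * C) ≤ t / (2 * Real.pi * w ^ k) := div_le_div_of_nonneg_left ht.le (by positivity) h2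
      have h4 := mul_le_mul_of_nonneg_right h3 hu
      have e2 : t / Z ^ k * u / C = t / (Z ^ k * C) * u := by
        field_simp
      rw [e2]
      exact h4
    · have h1 : Z ^ k ≤ 2 ^ k * w ^ k := by
        rw [← mul_pow]
        exact pow_le_pow_left₀ hZ0.le (by linarith) k
      have h2 : Z ^ k ≤ C * (2 * Real.pi * w ^ k) := by
        calc Z ^ k ≤ 2 ^ k * w ^ k := h1
          _ ≤ C * w ^ k := mul_le_mul_of_nonneg_right hC2 hwk.le
          _ ≤ C * (2 * Real.pi * w ^ k) := by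
            refine mul_le_mul_of_nonneg_left ?_ hCpos.le
            nlinarith
      have h3 : t / (2 * Real.pi * w ^ k) ≤ C * (t / Z ^ k) := by
        rw [div_le_iff₀ (by positivity)]
        have e3 : C * (t / Z ^ k) * (2 * Real.pi * w ^ k) = t * ((C * (2 * Real.pi * w ^ k)) / Z ^ k) := by ring
        rw [e3]
        have h4 : 1 ≤ C * (2 * Real.pi * w ^ k) / Z ^ k := by
          rw [le_div_iff₀ hZk, one_mul]
          exact h2
        nlinarith
      have h4 := mul_le_mul_of_nonneg_right h3 hu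
      linarith
  · obtain ⟨w, hw1, hw2, hw⟩ := geo_mvt (f := fun w => xx t k (w + u) - xx t k w)
      (f' := fun w => k * yy t k (w + u) - k * yy t k w) (a := z) (b := z2) hzz (fun x hx _ => by
        have h1 : HasDerivAt (fun y => xx t k (y + u)) (k * yy t k (x + u)) x := by
          have := (xx_deriv t k hk (z := x + u) (by linarith)).comp_add_const x u
          simpa using this
        exact h1.sub (xx_deriv t k hk (by linarith)))
    have h1 := hfirst w (w + u) (by linarith) (by linarith) (by linarith)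
    rw [add_sub_cancel_left] at h1
    have h2 : 0 ≤ t / Z ^ (k + 1) * u / C0 := by positivity
    have h3 : t / Z ^ (k + 1) * u / C0 ≤ k * (yy t k w - yy t k (w + u)) := by
      calc t / Z ^ (k + 1) * u / C0 = 1 * (t / Z ^ (k + 1) * u / C0) := (one_mul _).symm
        _ ≤ k * (yy t k w - yy t k (w + u)) := mul_le_mul hk1 h1 h2 hk0.le
    have h4 := mul_le_mul_of_nonneg_right h3 (sub_nonneg.2 hzz)
    have h5 : t / Z ^ (k + 1) * u * (z2 - z) / C ≤ t / Z ^ (k + 1) * u * (z2 - z) / C0 := by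
      refine hmono _ ?_
      have : 0 ≤ z2 - z := sub_nonneg.2 hzz
      positivity
    have e4 : t / Z ^ (k + 1) * u * (z2 - z) / C0 = t / Z ^ (k + 1) * u / C0 * (z2 - z) := by ring
    have e5 : (xx t k (z + u) - xx t k z) - (xx t k (z2 + u) - xx t k z2) =
        k * (yy t k w - yy t k (w + u)) * (z2 - z) := by
      have e6 : (xx t k (z + u) - xx t k z) - (xx t k (z2 + u) - xx t k z2) =
          -((xx t k (z2 + u) - xx t k z2) - (xx t k (z + u) - xx t k z)) := by ring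
      rw [e6, hw]
      ring
    rw [e5]
    rw [e4] at h5
    exact h5.trans h4

end Pool.Agent.Lib.DL
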