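import Pool.Agent.Lib.DL.BD
import Pool.Agent.Lib.ZB.Br

/-!
# DL / Hd: the estimate with dilated shifts, unconditionally
-/

set_option autoImplicit false

namespace Pool.Agent.Lib.DL

/-- for `t ≤ N^k`, `N^(2(k+1)) ≤ t^3`: `∑_{N<n≤M} n^(-it) = O(N^(1+ε) (N^2 t^(-1/k))^(-1/(k(k+1))))`, every `k ≥ 3` -/
theorem hdb (k : ℕ) (hk : 3 ≤ k) : HDB k := hblkD ZB.vmv k hk

end Pool.Agent.Lib.DL
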