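import Pool.Agent.Lib.DL.Wt
import Pool.Agent.Lib.HC.Jk

/-!
# DL / KD (80 lines): the two-dimensional mean square

PROOF.  Adapt `HC/KJ.lean` (`kernelJ`): `two_dimJ` with `A = EA N M D`, `x m = cd t m.unpair (k-1)`, `y m = cd t m.unpair k`, then `sum_EA`, `Nat.unpair_pair` and `wt_pairs`.
-/

set_option autoImplicit false

namespace Pool.Agent.Lib.DL

open Finset Pool.Agent.Lib.ZB Pool.Agent.Lib.HB Pool.Agent.Lib.HC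

theorem kernelD (k : ℕ) (hk : 3 ≤ k) : ∃ C : ℝ, 0 ≤ C ∧ ∀ (N M D Y : ℕ) (t : ℝ), Par k N D Y t → M ≤ 2 * N →
    ∀ b : ℕ → ℂ, (∀ n, ‖b n‖ ≤ 1) →
    ∑ i ∈ range (k * (k + 1) / 2 * Y ^ (k - 1) + 1), ∑ j ∈ range (k * (k + 1) / 2 * Y ^ k + 1),
      ‖∑ m ∈ EA N M D, b m * e ((i : ℝ) * cd t (Nat.unpair m) (k - 1) + (j : ℝ) * cd t (Nat.unpair m) k)‖ ^ 2 ≤
      C * (Y : ℝ) ^ (2 * k - 1) * ((N : ℝ) * D) * (1 + Real.log N) := by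
  obtain ⟨C1, hC1, h1⟩ := two_dimJ
  obtain ⟨C2, hC2, h2⟩ := wt_pairs k hk
  obtain ⟨s, hs⟩ : ∃ s : ℕ, s = k * (k + 1) / 2 := ⟨_, rfl⟩
  have hs1 : 1 ≤ s := by
    rw [hs]
    have h1 : 3 * 4 ≤ k * (k + 1) := Nat.mul_le_mul hk (by omega)
    omega
  have hs1R : (1 : ℝ) ≤ s := by exact_mod_cast hs1
  refine ⟨C1 * (2 * s) ^ 2 * C2, by positivity, ?_⟩
  intro N M D Y t hP hM b hb
  rw [← hs]
  have hP0 := hP
  obtain ⟨hD, hY, hDN, _⟩ := hP0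
  have hN : 1 ≤ N := hD.trans hDN
  have hNR : (1 : ℝ) ≤ N := by exact_mod_cast hN
  have hYR : (1 : ℝ) ≤ Y := by exact_mod_cast hY
  have hlog : 0 ≤ Real.log N := Real.log_nonneg hNR
  obtain ⟨V, hV⟩ : ∃ V : ℕ, V = s * Y ^ (k - 1) + 1 := ⟨_, rfl⟩
  obtain ⟨W, hW⟩ : ∃ W : ℕ, W = s * Y ^ k + 1 := ⟨_, rfl⟩
  rw [← hV, ← hW]
  have hp1 : (1 : ℝ) ≤ (Y : ℝ) ^ (k - 1) := one_le_pow₀ hYR
  have hp2 : (1 : ℝ) ≤ (Y : ℝ) ^ k := one_le_pow₀ hYR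
  have hVS : (V : ℝ) ≤ 2 * s * (Y : ℝ) ^ (k - 1) := by
    rw [hV]
    push_cast
    nlinarith
  have hWS : (W : ℝ) ≤ 2 * s * (Y : ℝ) ^ k := by
    rw [hW]
    push_cast
    nlinarith
  have hVH : (Y : ℝ) ^ (k - 1) ≤ V := by
    rw [hV]
    push_cast
    nlinarith
  have hWH : (Y : ℝ) ^ k ≤ W := by
    rw [hW]
    push_cast
    nlinarith
  have h3 := h1 (EA N M D) (fun m => cd t (Nat.unpair m) (k - 1)) (fun m => cd t (Nat.unpair m) k) b hb V W (by omega) (by omega)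
  have h4 := h2 t N M D Y V W hP hM hVH hWH
  refine h3.trans ?_
  have hEA : ∑ n ∈ EA N M D, ∑ m ∈ EA N M D, wt V (cd t (Nat.unpair n) (k - 1) - cd t (Nat.unpair m) (k - 1)) ^ 2 *
      wt W (cd t (Nat.unpair n) k - cd t (Nat.unpair m) k) ^ 2 =
      ∑ p ∈ AA N M D, ∑ p' ∈ AA N M D, wt V (cd t p (k - 1) - cd t p' (k - 1)) ^ 2 * wt W (cd t p k - cd t p' k) ^ 2 := by
    rw [sum_EA]
    refine sum_congr rfl fun p _ => ?_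
    rw [sum_EA]
    refine sum_congr rfl fun p' _ => ?_
    rw [Nat.unpair_pair, Nat.unpair_pair]
  have hVW : C1 * (V : ℝ) * W ≤ C1 * ((2 * s * (Y : ℝ) ^ (k - 1)) * (2 * s * (Y : ℝ) ^ k)) := by
    rw [mul_assoc]
    refine mul_le_mul_of_nonneg_left (mul_le_mul hVS hWS (Nat.cast_nonneg _) (by positivity)) (by linarith)
  have e1 : (Y : ℝ) ^ (k - 1) * (Y : ℝ) ^ k = (Y : ℝ) ^ (2 * k - 1) := by
    rw [← pow_add]
    congr 1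
    omega
  have hS0 : 0 ≤ ∑ p ∈ AA N M D, ∑ p' ∈ AA N M D, wt V (cd t p (k - 1) - cd t p' (k - 1)) ^ 2 * wt W (cd t p k - cd t p' k) ^ 2 :=
    sum_nonneg fun n _ => sum_nonneg fun m _ => by positivity
  calc C1 * (V : ℝ) * W * ∑ n ∈ EA N M D, ∑ m ∈ EA N M D, wt V (cd t (Nat.unpair n) (k - 1) - cd t (Nat.unpair m) (k - 1)) ^ 2 *
      wt W (cd t (Nat.unpair n) k - cd t (Nat.unpair m) k) ^ 2
      = C1 * (V : ℝ) * W * ∑ p ∈ AA N M D, ∑ p' ∈ AA N M D, wt V (cd t p (k - 1) - cd t p' (k - 1)) ^ 2 *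
          wt W (cd t p k - cd t p' k) ^ 2 := by rw [hEA]
    _ ≤ (C1 * ((2 * s * (Y : ℝ) ^ (k - 1)) * (2 * s * (Y : ℝ) ^ k))) * (C2 * (1 + Real.log N) * ((N : ℝ) * D)) :=
        mul_le_mul hVW h4 hS0 (by positivity)
    _ = C1 * (2 * s) ^ 2 * C2 * ((Y : ℝ) ^ (k - 1) * (Y : ℝ) ^ k) * ((N : ℝ) * D) * (1 + Real.log N) := by ring
    _ = _ := by rw [e1]

end Pool.Agent.Lib.DL
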