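import Pool.Agent.Lib.DL.All
import Pool.Agent.Lib.DL.Diag

/-!
# DL / Wt (150 lines): the weighted number of close pairs

PROOF.  Adapt `HC/Wt.lean` (copy its private lemmas): index set `AA N M D` instead of `Ioc N M`, `zz p < zz p'` instead of `n < m`, `all_card` of this directory (no factor `1 + log N`, `Q` replaced
by `N D`), `Y` instead of `H`.  Three parts: `zz p < zz p'`, `zz p' < zz p` (symmetry), `zz p = zz p'` (then `n d' = n' d`; `wt ≤ 1`; `diag_card`).  `cd t p k = (-1)^k yy t k (zz p)` (`yy_cd`),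
`cd t p (k-1) = (-1)^k xx t k (zz p)` (`xx_cd`), `nrm` and `wt D` are even.  Dyadic: `α = min (2^i/Y^(k-1)) (1/2)`, `β = min (2^j/Y^k) (1/2)`, `a = 2^i`, `b = 2^j`.
-/

set_option autoImplicit false

namespace Pool.Agent.Lib.DL

open Finset Pool.Agent.Lib.ZB Pool.Agent.Lib.HB Pool.Agent.Lib.HC

private theorem wtH_anti (D D' x : ℝ) (hD : 0 ≤ D) (hDD : D ≤ D') : wt D' x ≤ wt D x := by
  unfold wt
  have h := nrm_nonneg x
  refine one_div_le_one_div_of_le (by positivity) ?_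
  have h1 : D * nrm x ≤ D' * nrm x := mul_le_mul_of_nonneg_right hDD h
  have h2 : 0 ≤ D * nrm x := mul_nonneg hD h
  nlinarith

private theorem wtH_sym (D x : ℝ) : wt D (-x) = wt D x := by
  unfold wt
  rw [nrm_neg]

private theorem wtH_dyad (D : ℝ) (hD : 1 ≤ D) (I : ℕ) (hI : D ≤ 2 ^ I) (x : ℝ) :
    wt D x ^ 2 ≤ 16 * ∑ i ∈ range (I + 1), (1 / 16 : ℝ) ^ i * (if nrm x ≤ min (2 ^ i / D) (1 / 2) then 1 else 0) := by
  classical
  have hx0 := nrm_nonneg x
  have hx1 := nrm_le_half x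
  have hD0 : 0 < D := by linarith
  have hex : ∃ i : ℕ, nrm x ≤ 2 ^ i / D := ⟨I, by
    rw [le_div_iff₀ hD0]
    nlinarith⟩
  have hfs := Nat.find_spec hex
  have hfI : Nat.find hex ≤ I := Nat.find_min' hex (by
    rw [le_div_iff₀ hD0]
    nlinarith)
  obtain ⟨i, hi⟩ : ∃ i, i = Nat.find hex := ⟨_, rfl⟩
  rw [← hi] at hfs hfI
  have hterm : (1 / 16 : ℝ) ^ i ≤ ∑ i ∈ range (I + 1), (1 / 16 : ℝ) ^ i * (if nrm x ≤ min (2 ^ i / D) (1 / 2) then 1 else 0) := by
    have h1 := single_le_sum (f := fun i => (1 / 16 : ℝ) ^ i * (if nrm x ≤ min (2 ^ i / D) (1 / 2) then (1:ℝ) else 0))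
      (fun j _ => by split_ifs <;> positivity) (mem_range.mpr (show i < I + 1 by omega))
    refine le_trans (le_of_eq ?_) h1
    rw [if_pos (le_min hfs hx1), mul_one]
  have hkey : wt D x ^ 2 ≤ 16 * (1 / 16 : ℝ) ^ i := by
    rcases Nat.eq_zero_or_pos i with h0 | h0
    · rw [h0, pow_zero]
      have h1 := wt_le_one D x
      have h2 := (wt_pos D x).le
      nlinarith
    · obtain ⟨j, rfl⟩ : ∃ j, i = j + 1 := ⟨i - 1, by omega⟩
      have hlt : ¬ nrm x ≤ 2 ^ j / D := Nat.find_min hex (by omega)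
      rw [not_le, div_lt_iff₀ hD0] at hlt
      have h3 : (2 : ℝ) ^ j < D * nrm x := by rw [mul_comm]; exact hlt
      have h4 : wt D x ≤ 1 / 4 ^ j := by
        unfold wt
        refine one_div_le_one_div_of_le (by positivity) ?_
        have h5 : (4 : ℝ) ^ j = (2 ^ j) ^ 2 := by rw [← pow_mul, mul_comm, pow_mul]; norm_num
        have h6 : (2 ^ j : ℝ) ^ 2 ≤ (D * nrm x) ^ 2 := pow_le_pow_left₀ (by positivity) h3.le 2
        rw [h5]
        linarith
      calc wt D x ^ 2 ≤ (1 / 4 ^ j) ^ 2 := pow_le_pow_left₀ (wt_pos D x).le h4 2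
        _ = 16 * (1 / 16 : ℝ) ^ (j + 1) := by
          have h7 : ((4 : ℝ) ^ j) ^ 2 = 16 ^ j := by rw [← pow_mul, mul_comm j 2, pow_mul]; norm_num
          rw [div_pow, one_pow, h7, div_pow, one_pow, pow_succ]
          have h8 : (16 : ℝ) ^ j ≠ 0 := by positivity
          field_simp
  exact hkey.trans (mul_le_mul_of_nonneg_left hterm (by norm_num))

private theorem wtH_g4 (n : ℕ) : ∑ i ∈ range n, (1 / 4 : ℝ) ^ i ≤ 4 / 3 := by
  have h : ∑ i ∈ range n, (1 / 4 : ℝ) ^ i = 4 / 3 * (1 - (1 / 4) ^ n) := by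
    induction n with
    | zero => simp
    | succ n ih => rw [sum_range_succ, ih, pow_succ]; ring
  rw [h]
  have : (0:ℝ) ≤ (1 / 4) ^ n := by positivity
  linarith

private theorem wtH_g2 (n : ℕ) : ∑ i ∈ range n, (1 / 2 : ℝ) ^ i ≤ 2 := by
  have h : ∑ i ∈ range n, (1 / 2 : ℝ) ^ i = 2 * (1 - (1 / 2) ^ n) := by
    induction n with
    | zero => simp
    | succ n ih => rw [sum_range_succ, ih, pow_succ]; ring
  rw [h]
  have : (0:ℝ) ≤ (1 / 2) ^ n := by positivity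
  linarith

private theorem wtH_nrmk (k : ℕ) (z : ℝ) : nrm ((-1) ^ k * z) = nrm z := by
  rcases neg_one_pow_eq_or ℝ k with h | h
  · rw [h, one_mul]
  · rw [h, neg_one_mul, nrm_neg]

open Classical in
/-- indicator of a close pair `zz p < zz p'` -/
private noncomputable def eP (t : ℝ) (k : ℕ) (α β : ℝ) (p p' : ℕ × ℕ) : ℝ :=
  if zz p < zz p' ∧ nrm (yy t k (zz p) - yy t k (zz p')) ≤ β ∧ nrm (xx t k (zz p') - xx t k (zz p)) ≤ α then 1 else 0

private theorem eP_nonneg (t : ℝ) (k : ℕ) (α β : ℝ) (p p' : ℕ × ℕ) : 0 ≤ eP t k α β p p' := by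
  unfold eP
  split_ifs <;> norm_num

theorem wt_pairs (k : ℕ) (hk : 3 ≤ k) : ∃ C : ℝ, 1 ≤ C ∧ ∀ (t : ℝ) (N M D Y : ℕ) (V W : ℝ), Par k N D Y t → M ≤ 2 * N →
    (Y : ℝ) ^ (k - 1) ≤ V → (Y : ℝ) ^ k ≤ W →
    ∑ p ∈ AA N M D, ∑ p' ∈ AA N M D, wt V (cd t p (k - 1) - cd t p' (k - 1)) ^ 2 * wt W (cd t p k - cd t p' k) ^ 2 ≤
      C * (1 + Real.log N) * ((N : ℝ) * D) := by
  classical
  obtain ⟨C, hC, hall⟩ := all_card k hk
  obtain ⟨C', hC', hdg⟩ := diag_card
  refine ⟨C' + 1400 * C, by linarith, ?_⟩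
  intro t N M D Y V W hP hMN hV hW
  obtain ⟨hD, hY, hDN, ht1, -⟩ := id hP
  have hN : 1 ≤ N := hD.trans hDN
  have hN1 : (1:ℝ) ≤ N := by exact_mod_cast hN
  have hY1 : (1:ℝ) ≤ Y := by exact_mod_cast hY
  obtain ⟨A, hA⟩ : ∃ A : ℝ, A = (Y : ℝ) ^ (k - 1) := ⟨_, rfl⟩
  obtain ⟨B, hB⟩ : ∃ B : ℝ, B = (Y : ℝ) ^ k := ⟨_, rfl⟩
  have hA1 : 1 ≤ A := by rw [hA]; exact one_le_pow₀ hY1
  have hB1 : 1 ≤ B := by rw [hB]; exact one_le_pow₀ hY1
  have hA0 : 0 < A := by linarith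
  have hB0 : 0 < B := by linarith
  obtain ⟨I, hI⟩ := pow_unbounded_of_one_lt (max A B) (one_lt_two : (1:ℝ) < 2)
  have hIA : A ≤ 2 ^ I := ((le_max_left _ _).trans_lt hI).le
  have hIB : B ≤ 2 ^ I := ((le_max_right _ _).trans_lt hI).le
  obtain ⟨Q, hQ⟩ : ∃ Q : ℝ, Q = (N : ℝ) * D := ⟨_, rfl⟩
  have hQ0 : 0 ≤ Q := by rw [hQ]; positivity
  rw [← hQ]
  have hlog : 0 ≤ Real.log N := Real.log_nonneg hN1
  obtain ⟨al, hal⟩ : ∃ al : ℕ → ℝ, al = fun i => min (2 ^ i / A) (1 / 2) := ⟨_, rfl⟩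
  obtain ⟨be, hbe⟩ : ∃ be : ℕ → ℝ, be = fun i => min (2 ^ i / B) (1 / 2) := ⟨_, rfl⟩
  -- the counts
  have hcard : ∀ i j : ℕ, ∑ p ∈ AA N M D, ∑ p' ∈ AA N M D, eP t k (al i) (be j) p p' ≤
      C * ((2 ^ i) ^ 2 * (2 ^ j) ^ 3) * Q := by
    intro i j
    have ha1 : (1:ℝ) ≤ 2 ^ i := one_le_pow₀ (by norm_num)
    have hb1 : (1:ℝ) ≤ 2 ^ j := one_le_pow₀ (by norm_num)
    have h := hall t N M D Y (al i) (be j) (2 ^ i) (2 ^ j) hP hMN ha1 hb1
      (by rw [hal]; positivity) (by rw [hal]; exact min_le_right _ _)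
      (by
        rw [hal, ← hA]
        calc min (2 ^ i / A) (1 / 2) * A ≤ (2 ^ i / A) * A := mul_le_mul_of_nonneg_right (min_le_left _ _) hA0.le
          _ = 2 ^ i := div_mul_cancel₀ _ hA0.ne')
      (by rw [hbe]; positivity)
      (by rw [hbe]; exact min_le_right _ _)
      (by
        rw [hbe, ← hB]
        calc min (2 ^ j / B) (1 / 2) * B ≤ (2 ^ j / B) * B := mul_le_mul_of_nonneg_right (min_le_left _ _) hB0.le
          _ = 2 ^ j := div_mul_cancel₀ _ hB0.ne')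
    rw [← hQ] at h
    refine le_trans (le_of_eq ?_) h
    rw [card_filter, sum_product]
    push_cast
    refine sum_congr rfl fun p _ => sum_congr rfl fun p' _ => ?_
    unfold eP
    rfl
  -- pointwise
  obtain ⟨c, hc⟩ : ∃ c : ℕ → ℕ → ℝ, c = fun i j => (16 * (1 / 16 : ℝ) ^ i) * (16 * (1 / 16 : ℝ) ^ j) := ⟨_, rfl⟩
  have hc0 : ∀ i j, 0 ≤ c i j := fun i j => by rw [hc]; positivity
  have hprod : ∀ x y : ℝ, wt V x ^ 2 * wt W y ^ 2 ≤ ∑ i ∈ range (I + 1), ∑ j ∈ range (I + 1),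
      c i j * ((if nrm x ≤ al i then 1 else 0) * (if nrm y ≤ be j then 1 else 0)) := by
    intro x y
    have e1 : wt V x ^ 2 ≤ wt A x ^ 2 := pow_le_pow_left₀ (wt_pos V x).le (wtH_anti A V x hA0.le (by rw [hA]; exact hV)) 2
    have e2 : wt W y ^ 2 ≤ wt B y ^ 2 := pow_le_pow_left₀ (wt_pos W y).le (wtH_anti B W y hB0.le (by rw [hB]; exact hW)) 2
    have e3 := e1.trans (wtH_dyad A hA1 I hIA x)
    have e4 := e2.trans (wtH_dyad B hB1 I hIB y)
    refine (mul_le_mul e3 e4 (by positivity) (le_trans (by positivity) e3)).trans (le_of_eq ?_)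
    rw [mul_sum, mul_sum, sum_mul_sum]
    refine sum_congr rfl fun i _ => sum_congr rfl fun j _ => ?_
    rw [hc, hal, hbe]
    ring
  have hmem : ∀ p ∈ AA N M D, 1 ≤ p.2 := by
    intro p hp
    unfold AA at hp
    rw [mem_product, mem_Ico] at hp
    omega
  have hpt : ∀ p ∈ AA N M D, ∀ p' ∈ AA N M D, wt V (cd t p (k - 1) - cd t p' (k - 1)) ^ 2 * wt W (cd t p k - cd t p' k) ^ 2 ≤
      (if p.1 * p'.2 = p'.1 * p.2 then 1 else 0) + ∑ i ∈ range (I + 1), ∑ j ∈ range (I + 1),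
        c i j * (eP t k (al i) (be j) p p' + eP t k (al i) (be j) p' p) := by
    intro p hp p' hp'
    have h2 := hmem p hp
    have h2' := hmem p' hp'
    have hx : nrm (cd t p (k - 1) - cd t p' (k - 1)) = nrm (xx t k (zz p') - xx t k (zz p)) := by
      rw [xx_cd t k p (by omega) h2, xx_cd t k p' (by omega) h2', ← mul_sub, wtH_nrmk, nrm_sub_comm]
    have hy : nrm (cd t p k - cd t p' k) = nrm (yy t k (zz p) - yy t k (zz p')) := by
      rw [yy_cd t k p h2, yy_cd t k p' h2', ← mul_sub, wtH_nrmk]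
    have hi0 : (0:ℝ) ≤ (if p.1 * p'.2 = p'.1 * p.2 then 1 else 0) := by split_ifs <;> norm_num
    rcases lt_trichotomy (zz p) (zz p') with h | h | h
    · refine le_trans ?_ (le_add_of_nonneg_left hi0)
      refine (hprod _ _).trans (sum_le_sum fun i _ => sum_le_sum fun j _ => mul_le_mul_of_nonneg_left ?_ (hc0 i j))
      refine le_trans (le_of_eq ?_) (le_add_of_nonneg_right (eP_nonneg _ _ _ _ _ _))
      unfold eP
      rw [hx, hy]
      by_cases ha : nrm (xx t k (zz p') - xx t k (zz p)) ≤ al i <;>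
        by_cases hb : nrm (yy t k (zz p) - yy t k (zz p')) ≤ be j <;> simp [ha, hb, h]
    · have hz : p.1 * p'.2 = p'.1 * p.2 := by
        unfold zz at h
        have e1 : (0:ℝ) < p.2 := by exact_mod_cast h2
        have e2 : (0:ℝ) < p'.2 := by exact_mod_cast h2'
        rw [div_eq_div_iff e1.ne' e2.ne'] at h
        exact_mod_cast h
      rw [if_pos hz]
      refine le_trans ?_ (le_add_of_nonneg_right (sum_nonneg fun i _ => sum_nonneg fun j _ =>
        mul_nonneg (hc0 i j) (add_nonneg (eP_nonneg _ _ _ _ _ _) (eP_nonneg _ _ _ _ _ _))))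
      have a1 : wt V (cd t p (k - 1) - cd t p' (k - 1)) ^ 2 ≤ 1 := pow_le_one₀ (wt_pos _ _).le (wt_le_one _ _)
      have a2 : wt W (cd t p k - cd t p' k) ^ 2 ≤ 1 := pow_le_one₀ (wt_pos _ _).le (wt_le_one _ _)
      exact mul_le_one₀ a1 (by positivity) a2
    · refine le_trans ?_ (le_add_of_nonneg_left hi0)
      refine (hprod _ _).trans (sum_le_sum fun i _ => sum_le_sum fun j _ => mul_le_mul_of_nonneg_left ?_ (hc0 i j))
      refine le_trans (le_of_eq ?_) (le_add_of_nonneg_left (eP_nonneg _ _ _ _ _ _))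
      unfold eP
      rw [hx, hy, nrm_sub_comm (xx t k (zz p')), nrm_sub_comm (yy t k (zz p))]
      by_cases ha : nrm (xx t k (zz p) - xx t k (zz p')) ≤ al i <;>
        by_cases hb : nrm (yy t k (zz p') - yy t k (zz p)) ≤ be j <;> simp [ha, hb, h]
  -- the sum
  have hdiag : ∑ p ∈ AA N M D, ∑ p' ∈ AA N M D, (if p.1 * p'.2 = p'.1 * p.2 then (1:ℝ) else 0) ≤ C' * (1 + Real.log N) * Q := by
    have h := hdg N M D hD hDN hMN
    rw [← hQ] at h
    refine le_trans (le_of_eq ?_) h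
    rw [card_filter, sum_product]
    push_cast
    rfl
  have hmain : ∑ p ∈ AA N M D, ∑ p' ∈ AA N M D, ∑ i ∈ range (I + 1), ∑ j ∈ range (I + 1),
      c i j * (eP t k (al i) (be j) p p' + eP t k (al i) (be j) p' p) ≤ 1400 * C * Q := by
    have hK0 : 0 ≤ C * Q := by positivity
    have hsw : ∑ p ∈ AA N M D, ∑ p' ∈ AA N M D, ∑ i ∈ range (I + 1), ∑ j ∈ range (I + 1),
        c i j * (eP t k (al i) (be j) p p' + eP t k (al i) (be j) p' p) =
        ∑ i ∈ range (I + 1), ∑ j ∈ range (I + 1), c i j *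
          (∑ p ∈ AA N M D, ∑ p' ∈ AA N M D, eP t k (al i) (be j) p p' + ∑ p ∈ AA N M D, ∑ p' ∈ AA N M D, eP t k (al i) (be j) p p') := by
      have step : ∀ p ∈ AA N M D, ∑ p' ∈ AA N M D, ∑ i ∈ range (I + 1), ∑ j ∈ range (I + 1),
          c i j * (eP t k (al i) (be j) p p' + eP t k (al i) (be j) p' p) =
          ∑ i ∈ range (I + 1), ∑ j ∈ range (I + 1), ∑ p' ∈ AA N M D, c i j * (eP t k (al i) (be j) p p' + eP t k (al i) (be j) p' p) := by
        intro n _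
        rw [sum_comm]
        exact sum_congr rfl fun i _ => sum_comm
      rw [sum_congr rfl step, sum_comm]
      refine sum_congr rfl fun i _ => ?_
      rw [sum_comm]
      refine sum_congr rfl fun j _ => ?_
      have hs : ∑ p ∈ AA N M D, ∑ p' ∈ AA N M D, eP t k (al i) (be j) p' p = ∑ p ∈ AA N M D, ∑ p' ∈ AA N M D, eP t k (al i) (be j) p p' := sum_comm
      calc ∑ p ∈ AA N M D, ∑ p' ∈ AA N M D, c i j * (eP t k (al i) (be j) p p' + eP t k (al i) (be j) p' p)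
          = c i j * (∑ p ∈ AA N M D, ∑ p' ∈ AA N M D, eP t k (al i) (be j) p p' + ∑ p ∈ AA N M D, ∑ p' ∈ AA N M D, eP t k (al i) (be j) p' p) := by
            simp_rw [← mul_sum, sum_add_distrib]
        _ = _ := by rw [hs]
    rw [hsw]
    calc ∑ i ∈ range (I + 1), ∑ j ∈ range (I + 1), c i j *
          (∑ p ∈ AA N M D, ∑ p' ∈ AA N M D, eP t k (al i) (be j) p p' + ∑ p ∈ AA N M D, ∑ p' ∈ AA N M D, eP t k (al i) (be j) p p')
        ≤ ∑ i ∈ range (I + 1), ∑ j ∈ range (I + 1), c i j * (2 * (C * ((2 ^ i) ^ 2 * (2 ^ j) ^ 3) * Q)) := by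
          refine sum_le_sum fun i _ => sum_le_sum fun j _ => mul_le_mul_of_nonneg_left ?_ (hc0 i j)
          have := hcard i j
          linarith
      _ = 512 * (C * Q) * ((∑ i ∈ range (I + 1), (1 / 4 : ℝ) ^ i) * ∑ j ∈ range (I + 1), (1 / 2 : ℝ) ^ j) := by
          rw [sum_mul_sum, mul_sum]
          refine sum_congr rfl fun i _ => ?_
          rw [mul_sum]
          refine sum_congr rfl fun j _ => ?_
          have e1 : (1 / 16 : ℝ) ^ i * (2 ^ i) ^ 2 = (1 / 4) ^ i := by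
            rw [← pow_mul, mul_comm i 2, pow_mul, ← mul_pow]; norm_num
          have e2 : (1 / 16 : ℝ) ^ j * (2 ^ j) ^ 3 = (1 / 2) ^ j := by
            rw [← pow_mul, mul_comm j 3, pow_mul, ← mul_pow]; norm_num
          rw [hc, ← e1, ← e2]
          ring
      _ ≤ 512 * (C * Q) * (4 / 3 * 2) := by
          refine mul_le_mul_of_nonneg_left ?_ (by positivity)
          exact mul_le_mul (wtH_g4 _) (wtH_g2 _) (sum_nonneg fun _ _ => by positivity) (by norm_num)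
      _ ≤ 1400 * C * Q := by nlinarith
  calc ∑ p ∈ AA N M D, ∑ p' ∈ AA N M D, wt V (cd t p (k - 1) - cd t p' (k - 1)) ^ 2 * wt W (cd t p k - cd t p' k) ^ 2
      ≤ ∑ p ∈ AA N M D, ∑ p' ∈ AA N M D, ((if p.1 * p'.2 = p'.1 * p.2 then (1:ℝ) else 0) + ∑ i ∈ range (I + 1), ∑ j ∈ range (I + 1),
        c i j * (eP t k (al i) (be j) p p' + eP t k (al i) (be j) p' p)) := sum_le_sum fun p hp => sum_le_sum fun p' hp' => hpt p hp p' hp'
    _ = ∑ p ∈ AA N M D, ∑ p' ∈ AA N M D, (if p.1 * p'.2 = p'.1 * p.2 then (1:ℝ) else 0) +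
        ∑ p ∈ AA N M D, ∑ p' ∈ AA N M D, ∑ i ∈ range (I + 1), ∑ j ∈ range (I + 1),
        c i j * (eP t k (al i) (be j) p p' + eP t k (al i) (be j) p' p) := by
        rw [← sum_add_distrib]
        exact sum_congr rfl fun n _ => sum_add_distrib
    _ ≤ C' * (1 + Real.log N) * Q + 1400 * C * Q := add_le_add hdiag hmain
    _ ≤ (C' + 1400 * C) * (1 + Real.log N) * Q := by
        have h1 : 0 ≤ C * Q := by positivity
        have h2 : 0 ≤ C * Q * Real.log N := by positivity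
        nlinarith

end Pool.Agent.Lib.DL
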